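import Pool.Agent.D0H34.FU.Stuf
import Pool.Agent.H851R3.DSHFinal
import Pool.Agent.Helper967.FL3

/-! The bridge between the free Lie algebra and the Lie polynomials in `ℚ⟨x₀, x₁⟩`. -/

set_option autoImplicit false

namespace Pool.Agent.D0H34.FU

open Pool.Agent.H777R4.DM Pool.Agent.Helper392_GT

attribute [local instance 100] LieRing.ofAssociativeRing

lemma bri_x : bri (FreeLieAlgebra.of ℚ 0) = x 0 := by simp [bri]
lemma bri_y : bri (FreeLieAlgebra.of ℚ 1) = - x 1 := by simp [bri]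

lemma bri_lie (a b : F2 ℚ) : bri ⁅a, b⁆ = bri a * bri b - bri b * bri a := by
  rw [LieHom.map_lie]; rfl

lemma bri_mem (σ : F2 ℚ) : bri σ ∈ LieX := by
  have hx : ∀ i, x i ∈ LieX := by
    intro i
    unfold LieX
    apply LieSubalgebra.subset_lieSpan
    fin_cases i <;> simp
  refine free_ind (fun u => bri u ∈ LieX) ?_ ?_ ?_ ?_ ?_ ?_ σ
  · rw [map_zero]; exact LieX.zero_mem
  · intro a b ha hb; rw [map_add]; exact LieX.add_mem ha hb
  · intro c a ha; rw [map_smul]; exact LieX.smul_mem c ha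
  · intro a b ha hb; rw [LieHom.map_lie]; exact LieX.lie_mem ha hb
  · rw [bri_x]; exact hx 0
  · rw [bri_y]; exact LieX.neg_mem (hx 1)

lemma bri_der {σ : F2 ℚ} (D : LieDerivation ℚ (F2 ℚ) (F2 ℚ)) (hD : IsIharaDer D σ) (u : F2 ℚ) :
    bri (D u) = der (bri σ) (bri u) := by
  refine free_ind (fun u => bri (D u) = der (bri σ) (bri u)) ?_ ?_ ?_ ?_ ?_ ?_ u
  · simp
  · intro a b ha hb
    rw [map_add, map_add, map_add, map_add, ha, hb]
  · intro c a ha
    rw [map_smul, map_smul, map_smul, map_smul, ha]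
  · intro a b ha hb
    rw [LieDerivation.apply_lie_eq_sub, map_sub, bri_lie, bri_lie, bri_lie, ha, hb, map_sub,
      H851R3.DSH.der_mul, H851R3.DSH.der_mul]
    noncomm_ring
  · rw [hD.1, map_zero, bri_x, H851R3.DSH.der_x0]
  · rw [hD.2, bri_lie, bri_y, map_neg, H851R3.DSH.der_x1]
    noncomm_ring

lemma bri_ihara {σ τ : F2 ℚ} {D E : LieDerivation ℚ (F2 ℚ) (F2 ℚ)} (hD : IsIharaDer D σ)
    (hE : IsIharaDer E τ) : bri (⁅σ, τ⁆ + D τ - E σ) = ihara (bri σ) (bri τ) := by
  rw [map_sub, map_add, bri_lie, bri_der D hD, bri_der E hE, ihara]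

/-- the automorphism `x₀ ↦ x₀, x₁ ↦ -x₁` -/
noncomputable def eta : A →ₐ[ℚ] A :=
  MonoidAlgebra.lift ℚ A (FreeMonoid (Fin 2)) (FreeMonoid.lift ![x 0, - x 1])

lemma eta_x (i : Fin 2) : eta (x i) = ![x 0, - x 1] i := by
  rw [x, wd, eta, MonoidAlgebra.lift_of]
  exact FreeMonoid.lift_eval_of _ i

open Pool.Agent.Helper967.FL in
lemma eta_bri (u : F2 ℚ) : eta (bri u) = iota u := by
  refine free_ind (fun u => eta (bri u) = iota u) ?_ ?_ ?_ ?_ ?_ ?_ u
  · simp
  · intro a b ha hb
    rw [map_add, map_add, map_add, ha, hb]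
  · intro c a ha
    rw [map_smul, map_smul, map_smul, ha]
  · intro a b ha hb
    rw [bri_lie, map_sub, map_mul, map_mul, ha, hb, iota_lie]
  · rw [bri_x, eta_x, iota_of]
    rfl
  · rw [bri_y, map_neg, eta_x, iota_of]
    show - - x 1 = _
    rw [neg_neg]; rfl

lemma bri_injective : Function.Injective bri := by
  intro a b h
  apply Pool.Agent.Helper967.FL.iota_injective
  rw [← eta_bri, ← eta_bri, h]

/-- `P ↦ P(A, B)` -/
noncomputable def ev : A →ₐ[ℚ] Module.End ℚ (List ℕ → ℚ) :=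
  MonoidAlgebra.lift ℚ (Module.End ℚ (List ℕ → ℚ)) (FreeMonoid (Fin 2)) (FreeMonoid.lift ![Aa, Bb])

lemma ev_x (i : Fin 2) : ev (x i) = ![Aa, Bb] i := by
  rw [x, wd, ev, MonoidAlgebra.lift_of]
  exact FreeMonoid.lift_eval_of _ i

lemma ev_bri (u : F2 ℚ) : ev (bri u) = subst ℚ Aa (-Bb) u := by
  refine free_ind (fun u => ev (bri u) = subst ℚ Aa (-Bb) u) ?_ ?_ ?_ ?_ ?_ ?_ u
  · simp
  · intro a b ha hb
    rw [map_add, map_add, map_add, ha, hb]
  · intro c a ha
    rw [map_smul, map_smul, map_smul, ha]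
  · intro a b ha hb
    rw [bri_lie, map_sub, map_mul, map_mul, ha, hb, LieHom.map_lie, lieAB]
  · rw [bri_x, ev_x, subst_x]; rfl
  · rw [bri_y, map_neg, ev_x, subst_y]; rfl

lemma ev_wd (u : List (Fin 2)) (l : List ℕ) : ev (wd u) del l = if u = wordX l then 1 else 0 := by
  induction u generalizing l with
  | nil =>
    have h : (wd ([] : List (Fin 2)) : A) = 1 := rfl
    rw [h, map_one]
    show del l = _
    rcases l with _ | ⟨a, l⟩
    · simp [del, wordX]
    · simp [del, wordX]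
  | cons i u ih =>
    have h : (wd (i :: u) : A) = x i * wd u := by rw [x, wd_mul]; rfl
    rw [h, map_mul, ev_x]
    fin_cases i
    · show aF (ev (wd u) del) l = _
      rcases l with _ | ⟨_ | e, l⟩
      · simp [aF, wordX]
      · simp [aF, wordX]
      · show ev (wd u) del (e :: l) = _
        rw [ih]
        have h2 : wordX ((e + 1) :: l) = 0 :: wordX (e :: l) := by simp [wordX, List.replicate_succ]
        rw [h2]
        by_cases hu : u = wordX (e :: l)
        · rw [if_pos hu, if_pos (by rw [hu]; rfl)]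
        · rw [if_neg hu, if_neg (fun h => hu (List.cons.inj h).2)]
    · show bF (ev (wd u) del) l = _
      rcases l with _ | ⟨_ | e, l⟩
      · simp [bF, wordX]
      · show ev (wd u) del l = _
        rw [ih]
        simp [wordX]
      · simp [bF, wordX, List.replicate_succ]

lemma ev_co (P : A) (l : List ℕ) : ev P del l = co P (wordX l) := by
  induction P using al_induction with
  | h1 u => rw [ev_wd, co_wd]
  | h2 P Q hP hQ => rw [map_add, co_add, ← hP, ← hQ]; rfl
  | h3 c P hP => rw [map_smul, co_smul, ← hP]; rfl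

/-- the coefficient function is the function of the coefficients -/
lemma gg_eq (ψ : F2 ℚ) (l : List ℕ) : Gg ψ l = co (bri ψ) (wordX l) := by
  rw [Gg, ← ev_bri, ev_co]

end Pool.Agent.D0H34.FU
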