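import Pool.Agent.D0H34.FU.R
import Pool.Agent.Helper392_GT.Five
import Pool.Agent.Helper392_GT.Depth1

/-! Image of the pentagon equation, evaluation on the states. -/

set_option autoImplicit false

namespace Pool.Agent.D0H34.FU

open Pool.Agent.H777R4.DM Pool.Agent.Helper392_GT

attribute [local instance 100] LieRing.ofAssociativeRing

lemma lieAB {V : Type} [AddCommGroup V] [Module ℚ V] (S T : Module.End ℚ V) : ⁅S, T⁆ = S * T - T * S := rfl

/-- the image of the pentagon equation -/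
theorem pent {ψ : F2 ℚ} (hp : Pentagon ℚ ψ) :
    subst ℚ Ax (-Dd) ψ + subst ℚ Ay (-By) ψ =
      subst ℚ (-Bx) (-By) ψ + subst ℚ Ay (-Dd) ψ + subst ℚ Ax (-Bx) ψ := by
  have e1 : ⁅Ax, Ay⁆ = 0 := by rw [lieAB, rAxAy, sub_self]
  have e2 : ⁅Ax, By⁆ = 0 := by rw [lieAB, rAxBy, sub_self]
  have e3 : ⁅Ay, Bx⁆ = 0 := by rw [lieAB, rAyBx, sub_self]
  have e4 : ⁅Bx, Cc⁆ = -⁅Bx, By⁆ := by rw [lieAB, rBxC, lieAB, neg_sub]
  have e5 : ⁅By, Cc⁆ = ⁅Bx, By⁆ := by rw [lieAB, rByC, lieAB]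
  have e6 : ⁅Ax, Cc⁆ = ⁅Ay, Cc⁆ - ⁅Bx, By⁆ := by
    have := rAC
    rw [lieAB, lieAB, lieAB]
    rw [sub_mul, mul_sub] at this
    have h : Ax * Cc - Cc * Ax = (Ax * Cc - Ay * Cc - (Cc * Ax - Cc * Ay)) + (Ay * Cc - Cc * Ay) := by abel
    rw [h, this]; abel
  refine five hp (pentagon_mem_D1 hp) Ax (-Bx) (-By) Ay (-Dd) ?_ ?_ ?_ ?_ ?_ ?_
  · rw [lie_neg, e2, neg_zero]
  · rw [neg_lie, ← lie_skew, e3, neg_zero, neg_zero]
  · rw [lie_neg, neg_lie, neg_neg]
    unfold Dd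
    rw [lie_add, lie_add, lie_self, e5, ← lie_skew]
    abel
  · rw [← lie_skew, e1, neg_zero]
  · rw [lie_neg, neg_lie, neg_neg]
    unfold Dd
    rw [add_lie, add_lie, lie_self, ← lie_skew By Bx, ← lie_skew Cc Bx, e4]
    abel
  · unfold Dd
    simp only [lie_neg, neg_lie, neg_neg, lie_add, add_lie]
    rw [← lie_skew By Ay, e3, ← lie_skew Bx Ax, ← lie_skew By Ax, ← lie_skew Cc Ax, e2, e6]
    abel

/-- a relation compatible with the operators is compatible with `ψ` of the operators -/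
theorem pres2 {V W : Type} [AddCommGroup V] [Module ℚ V] [AddCommGroup W] [Module ℚ W]
    (P : V → W → Prop) (r0 : P 0 0) (radd : ∀ v v' w w', P v w → P v' w' → P (v + v') (w + w'))
    (rsmul : ∀ (c : ℚ) v w, P v w → P (c • v) (c • w))
    {S T : Module.End ℚ V} {S' T' : Module.End ℚ W}
    (hS : ∀ v w, P v w → P (S v) (S' w)) (hT : ∀ v w, P v w → P (T v) (T' w)) (ψ : F2 ℚ) :
    ∀ v w, P v w → P (subst ℚ S T ψ v) (subst ℚ S' T' ψ w) := by
  have rsub : ∀ v v' w w', P v w → P v' w' → P (v - v') (w - w') := by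
    intro v v' w w' h h'
    have := radd _ _ _ _ h (rsmul (-1) _ _ h')
    simpa [sub_eq_add_neg] using this
  refine free_ind (fun ψ => ∀ v w, P v w → P (subst ℚ S T ψ v) (subst ℚ S' T' ψ w)) ?_ ?_ ?_ ?_ ?_ ?_ ψ
  · intro v w _
    simpa using r0
  · intro a b ha hb v w h
    rw [map_add, map_add, LinearMap.add_apply, LinearMap.add_apply]
    exact radd _ _ _ _ (ha v w h) (hb v w h)
  · intro c a ha v w h
    rw [map_smul, map_smul, LinearMap.smul_apply, LinearMap.smul_apply]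
    exact rsmul c _ _ (ha v w h)
  · intro a b ha hb v w h
    rw [LieHom.map_lie, LieHom.map_lie, lieAB, lieAB]
    exact rsub _ _ _ _ (ha _ _ (hb v w h)) (hb _ _ (ha v w h))
  · rw [subst_x, subst_x]; exact hS
  · rw [subst_y, subst_y]; exact hT

/-- a subspace preserved by the operators is preserved by `ψ` of the operators -/
theorem pres1 {V : Type} [AddCommGroup V] [Module ℚ V] (P : V → Prop) (r0 : P 0)
    (radd : ∀ v v', P v → P v' → P (v + v')) (rsmul : ∀ (c : ℚ) v, P v → P (c • v))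
    {S T : Module.End ℚ V} (hS : ∀ v, P v → P (S v)) (hT : ∀ v, P v → P (T v)) (ψ : F2 ℚ) :
    ∀ v, P v → P (subst ℚ S T ψ v) := by
  intro v hv
  exact pres2 (fun v (_ : V) => P v) r0 (fun v v' _ _ => radd v v') (fun c v _ => rsmul c v)
    (S' := S) (T' := T) (fun v _ => hS v) (fun v _ => hT v) ψ v v hv

/-- `f` on the `y`-states is `g` of the list -/
def RelY (f : F) (g : List ℕ → ℚ) : Prop := ∀ u v, f (mkY u v) = g (u ++ v)

/-- `f` on the `x`-states is `g` of the list -/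
def RelX (f : F) (g : List ℕ → ℚ) : Prop := ∀ u v, f (mkX u v) = g (u ++ v)

lemma relY_A {f : F} {g : List ℕ → ℚ} (h : RelY f g) : RelY (Ay f) (Aa g) := by
  intro u v
  show ayF f (mkY u v) = aF g (u ++ v)
  rcases u with _ | ⟨_ | a, u⟩
  · rcases v with _ | ⟨_ | e, v⟩
    · rfl
    · rfl
    · exact h [] (e :: v)
  · rfl
  · exact h (a :: u) v

lemma relX_A {f : F} {g : List ℕ → ℚ} (h : RelX f g) : RelX (Ax f) (Aa g) := by
  intro u v
  show axF f (mkX u v) = aF g (u ++ v)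
  rcases u with _ | ⟨_ | a, u⟩
  · rcases v with _ | ⟨_ | e, v⟩
    · rfl
    · rfl
    · exact h [] (e :: v)
  · rfl
  · exact h (a :: u) v

lemma relY_mv {f : F} {g : List ℕ → ℚ} (h : RelY f g) (a : ℕ) (u v : List ℕ) :
    f (mv mkY (a :: u) v) = g (a :: u ++ v) := by
  rcases List.eq_nil_or_concat u with rfl | ⟨u', b, rfl⟩
  · exact h [] (a :: v)
  · rw [List.concat_eq_append, mv_conc, h]
    simp

lemma relX_mv {f : F} {g : List ℕ → ℚ} (h : RelX f g) (a : ℕ) (u v : List ℕ) :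
    f (mv mkX (a :: u) v) = g (a :: u ++ v) := by
  rcases List.eq_nil_or_concat u with rfl | ⟨u', b, rfl⟩
  · exact h [] (a :: v)
  · rw [List.concat_eq_append, mv_conc, h]
    simp

lemma relY_D {f : F} {g : List ℕ → ℚ} (h : RelY f g) : RelY (Dd f) (Bb g) := by
  intro u v
  show bxF f (mkY u v) + byF f (mkY u v) + cF f (mkY u v) = bF g (u ++ v)
  rcases u with _ | ⟨a, u⟩
  · rcases v with _ | ⟨_ | e, v⟩
    · simp [mkY, bxF, byF, cF, bF]
    · simp only [mkY, bxF, byF, cF, bF, List.nil_append, zero_add]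
      exact h [] v
    · simp [mkY, bxF, byF, cF, bF]
  · have e1 : bxF f (mkY (a :: u) v) = 0 := by
      rcases v with _ | ⟨_ | e, v⟩
      · rfl
      · show f (.y a u v) - f (mv mkY (a :: u) v) = 0
        rw [relY_mv h]
        have := h (a :: u) v
        rw [mkY] at this
        rw [this, sub_self]
      · rfl
    have e3 : cF f (mkY (a :: u) v) = 0 := rfl
    rw [e1, e3, zero_add, add_zero]
    rcases a with _ | a
    · exact h u v
    · rfl

lemma relX_D {f : F} {g : List ℕ → ℚ} (h : RelX f g) : RelX (Dd f) (Bb g) := by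
  intro u v
  show bxF f (mkX u v) + byF f (mkX u v) + cF f (mkX u v) = bF g (u ++ v)
  rcases u with _ | ⟨a, u⟩
  · rcases v with _ | ⟨_ | e, v⟩
    · simp [mkX, bxF, byF, cF, bF]
    · simp only [mkX, bxF, byF, cF, bF, List.nil_append, zero_add]
      exact h [] v
    · simp [mkX, bxF, byF, cF, bF]
  · have e1 : byF f (mkX (a :: u) v) = 0 := by
      rcases v with _ | ⟨_ | e, v⟩
      · rfl
      · show f (.x a u v) - f (mv mkX (a :: u) v) = 0
        rw [relX_mv h]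
        have := h (a :: u) v
        rw [mkX] at this
        rw [this, sub_self]
      · rfl
    have e3 : cF f (mkX (a :: u) v) = 0 := rfl
    rw [e1, e3, add_zero, add_zero]
    rcases a with _ | a
    · exact h u v
    · rfl

/-- the function `δ` of the empty list -/
def del (l : List ℕ) : ℚ := if l = [] then 1 else 0

lemma relY_0 : RelY dlt del := by
  intro u v
  rcases u with _ | ⟨a, u⟩
  · rcases v with _ | ⟨e, v⟩ <;> simp [mkY, dlt, del]
  · simp [mkY, dlt, del]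

lemma relX_0 : RelX dlt del := by
  intro u v
  rcases u with _ | ⟨a, u⟩
  · rcases v with _ | ⟨e, v⟩ <;> simp [mkX, dlt, del]
  · simp [mkX, dlt, del]

lemma RelY.neg {f : F} {g : List ℕ → ℚ} (h : RelY f g) : RelY (-f) (-g) := fun u v => by
  rw [Pi.neg_apply, Pi.neg_apply, h]

lemma RelX.neg {f : F} {g : List ℕ → ℚ} (h : RelX f g) : RelX (-f) (-g) := fun u v => by
  rw [Pi.neg_apply, Pi.neg_apply, h]

/-- the coefficient function -/
noncomputable def Gg (ψ : F2 ℚ) : List ℕ → ℚ := subst ℚ Aa (-Bb) ψ del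

lemma evY (ψ : F2 ℚ) : RelY (subst ℚ Ay (-Dd) ψ dlt) (Gg ψ) := by
  refine pres2 RelY (fun u v => rfl) ?_ ?_ (fun f g h => relY_A h) (fun f g h => (relY_D h).neg) ψ dlt del
    relY_0
  · intro f f' g g' h h' u v
    rw [Pi.add_apply, Pi.add_apply, h, h']
  · intro c f g h u v
    rw [Pi.smul_apply, Pi.smul_apply, h]

lemma evX (ψ : F2 ℚ) : RelX (subst ℚ Ax (-Dd) ψ dlt) (Gg ψ) := by
  refine pres2 RelX (fun u v => rfl) ?_ ?_ (fun f g h => relX_A h) (fun f g h => (relX_D h).neg) ψ dlt del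
    relX_0
  · intro f f' g g' h h' u v
    rw [Pi.add_apply, Pi.add_apply, h, h']
  · intro c f g h u v
    rw [Pi.smul_apply, Pi.smul_apply, h]

/-- vanishing on the states with the first mark present -/
structure VX (f : F) : Prop where
  h1 : ∀ u e v, f (mkX u (e :: v)) = 0
  h2 : ∀ a u v, f (.y a u v) = 0

/-- vanishing on the states with the second mark present -/
structure VY (f : F) : Prop where
  h1 : ∀ u e v, f (mkY u (e :: v)) = 0
  h2 : ∀ a u v, f (.x a u v) = 0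

lemma VX.mv {f : F} (h : VX f) (a : ℕ) (u v : List ℕ) : f (mv mkY (a :: u) v) = 0 := by
  rcases List.eq_nil_or_concat u with rfl | ⟨u', b, rfl⟩
  · exact h.h1 [] a v
  · rw [List.concat_eq_append, mv_conc]
    exact h.h2 _ _ _

lemma VY.mv {f : F} (h : VY f) (a : ℕ) (u v : List ℕ) : f (mv mkX (a :: u) v) = 0 := by
  rcases List.eq_nil_or_concat u with rfl | ⟨u', b, rfl⟩
  · exact h.h1 [] a v
  · rw [List.concat_eq_append, mv_conc]
    exact h.h2 _ _ _

lemma VX.A {f : F} (h : VX f) : VX (Ax f) := by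
  refine ⟨fun u e v => ?_, fun a u v => ?_⟩
  · show axF f (mkX u (e :: v)) = 0
    rcases u with _ | ⟨_ | a, u⟩
    · rcases e with _ | e
      · rfl
      · exact h.h1 [] e v
    · rfl
    · exact h.h1 (a :: u) e v
  · show axF f (.y a u v) = 0
    rcases v with _ | ⟨_ | e, v⟩
    · rfl
    · show - f (Pool.Agent.D0H34.FU.mv mkY (a :: u) v) = 0
      rw [h.mv, neg_zero]
    · exact h.h2 a u (e :: v)

lemma VY.A {f : F} (h : VY f) : VY (Ay f) := by
  refine ⟨fun u e v => ?_, fun a u v => ?_⟩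
  · show ayF f (mkY u (e :: v)) = 0
    rcases u with _ | ⟨_ | a, u⟩
    · rcases e with _ | e
      · rfl
      · exact h.h1 [] e v
    · rfl
    · exact h.h1 (a :: u) e v
  · show ayF f (.x a u v) = 0
    rcases v with _ | ⟨_ | e, v⟩
    · rfl
    · show - f (Pool.Agent.D0H34.FU.mv mkX (a :: u) v) = 0
      rw [h.mv, neg_zero]
    · exact h.h2 a u (e :: v)

lemma VX.B {f : F} (h : VX f) : VX (-(Bx f)) := by
  refine ⟨fun u e v => ?_, fun a u v => ?_⟩
  · show - bxF f (mkX u (e :: v)) = 0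
    rw [neg_eq_zero]
    rcases u with _ | ⟨_ | a, u⟩
    · rfl
    · exact h.h1 u e v
    · rfl
  · show - bxF f (.y a u v) = 0
    rw [neg_eq_zero]
    rcases v with _ | ⟨_ | e, v⟩
    · rfl
    · show f (.y a u v) - f (Pool.Agent.D0H34.FU.mv mkY (a :: u) v) = 0
      rw [h.mv, h.h2, sub_zero]
    · rfl

lemma VY.B {f : F} (h : VY f) : VY (-(By f)) := by
  refine ⟨fun u e v => ?_, fun a u v => ?_⟩
  · show - byF f (mkY u (e :: v)) = 0
    rw [neg_eq_zero]
    rcases u with _ | ⟨_ | a, u⟩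
    · rfl
    · exact h.h1 u e v
    · rfl
  · show - byF f (.x a u v) = 0
    rw [neg_eq_zero]
    rcases v with _ | ⟨_ | e, v⟩
    · rfl
    · show f (.x a u v) - f (Pool.Agent.D0H34.FU.mv mkX (a :: u) v) = 0
      rw [h.mv, h.h2, sub_zero]
    · rfl

lemma vX (ψ : F2 ℚ) : VX (subst ℚ Ax (-Bx) ψ dlt) := by
  refine pres1 VX ⟨fun _ _ _ => rfl, fun _ _ _ => rfl⟩ ?_ ?_ (fun f h => h.A) (fun f h => h.B) ψ dlt ?_
  · intro f f' h h'
    exact ⟨fun u e v => by rw [Pi.add_apply, h.h1, h'.h1, add_zero],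
      fun a u v => by rw [Pi.add_apply, h.h2, h'.h2, add_zero]⟩
  · intro c f h
    exact ⟨fun u e v => by rw [Pi.smul_apply, h.h1, smul_zero],
      fun a u v => by rw [Pi.smul_apply, h.h2, smul_zero]⟩
  · exact ⟨fun u e v => by rcases u with _ | ⟨a, u⟩ <;> rfl, fun _ _ _ => rfl⟩

lemma vY (ψ : F2 ℚ) : VY (subst ℚ Ay (-By) ψ dlt) := by
  refine pres1 VY ⟨fun _ _ _ => rfl, fun _ _ _ => rfl⟩ ?_ ?_ (fun f h => h.A) (fun f h => h.B) ψ dlt ?_
  · intro f f' h h'
    exact ⟨fun u e v => by rw [Pi.add_apply, h.h1, h'.h1, add_zero],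
      fun a u v => by rw [Pi.add_apply, h.h2, h'.h2, add_zero]⟩
  · intro c f h
    exact ⟨fun u e v => by rw [Pi.smul_apply, h.h1, smul_zero],
      fun a u v => by rw [Pi.smul_apply, h.h2, smul_zero]⟩
  · exact ⟨fun u e v => by rcases u with _ | ⟨a, u⟩ <;> rfl, fun _ _ _ => rfl⟩

/-- the list of exponents of a state -/
def lst : St → List ℕ
  | .c v => v
  | .y a u v => a :: u ++ v
  | .x a u v => a :: u ++ v

lemma lst_mkX (u v : List ℕ) : lst (mkX u v) = u ++ v := by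
  rcases u with _ | ⟨a, u⟩ <;> rfl

lemma lst_mkY (u v : List ℕ) : lst (mkY u v) = u ++ v := by
  rcases u with _ | ⟨a, u⟩ <;> rfl

lemma lst_mvX (a : ℕ) (u v : List ℕ) : lst (mv mkX (a :: u) v) = a :: u ++ v := by
  rcases List.eq_nil_or_concat u with rfl | ⟨u', b, rfl⟩
  · rfl
  · rw [List.concat_eq_append, mv_conc, lst_mkX]
    simp

lemma lst_mvY (a : ℕ) (u v : List ℕ) : lst (mv mkY (a :: u) v) = a :: u ++ v := by
  rcases List.eq_nil_or_concat u with rfl | ⟨u', b, rfl⟩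
  · rfl
  · rw [List.concat_eq_append, mv_conc, lst_mkY]
    simp

/-- vanishing on the states with a nonzero exponent -/
def VN (f : F) : Prop := ∀ s, (lst s).sum ≠ 0 → f s = 0

lemma VN.bx {f : F} (h : VN f) : VN (-(Bx f)) := by
  intro s hs
  show - bxF f s = 0
  rw [neg_eq_zero]
  rcases s with v | ⟨a, u, _ | ⟨_ | e, v⟩⟩ | ⟨_ | a, u, v⟩
  · rfl
  · rfl
  · show f (.y a u v) - f (mv mkY (a :: u) v) = 0
    rw [h (.y a u v), h (mv mkY (a :: u) v), sub_zero]
    · rw [lst_mvY]; simpa [lst] using hs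
    · simpa [lst] using hs
  · rfl
  · show f (mkX u v) = 0
    apply h
    rw [lst_mkX]
    simpa [lst] using hs
  · rfl

lemma VN.by {f : F} (h : VN f) : VN (-(By f)) := by
  intro s hs
  show - byF f s = 0
  rw [neg_eq_zero]
  rcases s with v | ⟨_ | a, u, v⟩ | ⟨a, u, _ | ⟨_ | e, v⟩⟩
  · rfl
  · show f (mkY u v) = 0
    apply h
    rw [lst_mkY]
    simpa [lst] using hs
  · rfl
  · rfl
  · show f (.x a u v) - f (mv mkX (a :: u) v) = 0
    rw [h (.x a u v), h (mv mkX (a :: u) v), sub_zero]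
    · rw [lst_mvX]; simpa [lst] using hs
    · simpa [lst] using hs
  · rfl

lemma vN (ψ : F2 ℚ) : VN (subst ℚ (-Bx) (-By) ψ dlt) := by
  refine pres1 VN (fun s _ => rfl) ?_ ?_ (fun f h => h.bx) (fun f h => h.by) ψ dlt ?_
  · intro f f' h h' s hs
    rw [Pi.add_apply, h s hs, h' s hs, add_zero]
  · intro c f h s hs
    rw [Pi.smul_apply, h s hs, smul_zero]
  · intro s hs
    rcases s with _ | _ | _
    · rename_i v
      rcases v with _ | ⟨e, v⟩
      · simp [lst] at hs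
      · rfl
    · rfl
    · rfl

/-- the main function -/
noncomputable def Qf (ψ : F2 ℚ) : F := subst ℚ Ax (-Dd) ψ dlt

lemma qX (ψ : F2 ℚ) (u v : List ℕ) : Qf ψ (mkX u v) = Gg ψ (u ++ v) := evX ψ u v

lemma qY {ψ : F2 ℚ} (hp : Pentagon ℚ ψ) (a : ℕ) (u : List ℕ) (e : ℕ) (v : List ℕ)
    (hs : (a :: u ++ e :: v).sum ≠ 0) : Qf ψ (.y a u (e :: v)) = Gg ψ (a :: u ++ e :: v) := by
  have h := congrFun (congrArg (fun T : Module.End ℚ F => T dlt) (pent hp)) (.y a u (e :: v))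
  simp only [LinearMap.add_apply, Pi.add_apply] at h
  have h1 : subst ℚ Ay (-By) ψ dlt (.y a u (e :: v)) = 0 := (vY ψ).h1 (a :: u) e v
  have h2 : subst ℚ (-Bx) (-By) ψ dlt (.y a u (e :: v)) = 0 := vN ψ _ (by simpa [lst] using hs)
  have h3 : subst ℚ Ax (-Bx) ψ dlt (.y a u (e :: v)) = 0 := (vX ψ).h2 a u (e :: v)
  have h4 : subst ℚ Ay (-Dd) ψ dlt (.y a u (e :: v)) = Gg ψ (a :: u ++ e :: v) := evY ψ (a :: u) (e :: v)
  rw [h1, h2, h3, h4, add_zero, zero_add, add_zero] at h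
  exact h

end Pool.Agent.D0H34.FU
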