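import Pool.Agent.D0H34.FU.Small
import Pool.Agent.Helper771.FreeLieElim

/-! Free subalgebras of `𝔤𝔯𝔱₁`: assembly. -/

set_option autoImplicit false

namespace Pool.Agent.D0H34.FU

open Pool.Agent.H777R4.DM Pool.Agent.Helper392_GT

attribute [local instance 100] LieRing.ofAssociativeRing

/-- the quasi-shuffle relations -/
structure KK (ψ : A) : Prop where
  mem : ψ ∈ LieX
  c0 : co ψ [0] = 0
  c1 : co ψ [1] = 0
  c01 : co ψ [0, 1] = 0
  st : ∀ (a0 : ℕ) (a' : List ℕ) (b0 : ℕ) (b' : List ℕ), a0 + a'.sum + b0 + b'.sum ≠ 0 →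
      ss (a0 :: a') (b0 :: b') (fun l => co ψ (wordX l)) = 0

/-- **Furusho's theorem** (without regularization): solutions satisfy the double shuffle relations. -/
theorem kk_grt {ψ : F2 ℚ} (h : IsGRT ℚ ψ) : KK (bri ψ) where
  mem := bri_mem ψ
  c0 := (small_grt h).1
  c1 := (small_grt h).2.1
  c01 := (small_grt h).2.2
  st := by
    intro a0 a' b0 b' hs
    rw [← stuffle h.pent a0 a' b0 b' hs]
    congr 1
    funext l
    rw [gg_eq]

lemma ss_weight {a b : List ℕ} {g h : List ℕ → ℚ}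
    (H : ∀ l, l.sum + l.length = a.sum + a.length + (b.sum + b.length) → g l = h l) : ss a b g = ss a b h := by
  have key : ∀ a b : List ℕ, ∀ l ∈ stf a b, l.sum + l.length = a.sum + a.length + (b.sum + b.length) := by
    intro a b
    induction a, b using stf.induct with
    | case1 b => intro l hl; rw [stf_nil_left] at hl; simp at hl; subst hl; simp
    | case2 a u => intro l hl; rw [stf_nil_right] at hl; simp at hl; subst hl; simp
    | case3 a u b v ih1 ih2 ih3 =>
      intro l hl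
      rw [stf_cons] at hl
      simp only [List.mem_append, List.mem_map] at hl
      rcases hl with (⟨l', h1, rfl⟩ | ⟨l', h1, rfl⟩) | ⟨l', h1, rfl⟩
      · have := ih1 l' h1
        simp only [List.sum_cons, List.length_cons] at this ⊢; omega
      · have := ih2 l' h1
        simp only [List.sum_cons, List.length_cons] at this ⊢; omega
      · have := ih3 l' h1
        simp only [List.sum_cons, List.length_cons] at this ⊢; omega
  unfold ss
  congr 1
  apply List.map_congr_left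
  intro l hl
  exact H l (key a b l hl)

theorem lp_kk : Pool.Agent.D0H84.LS.LP KK where
  mem := fun _ h => h.mem
  c0 := fun _ h => h.c0
  c1 := fun _ h => h.c1
  c01 := fun _ h => h.c01
  sub := by
    intro ψ₁ ψ₂ κ h₁ h₂
    refine ⟨LieX.sub_mem h₂.mem (LieX.smul_mem κ h₁.mem), ?_, ?_, ?_, ?_⟩
    · rw [co_sub, co_smul, h₁.c0, h₂.c0]; ring
    · rw [co_sub, co_smul, h₁.c1, h₂.c1]; ring
    · rw [co_sub, co_smul, h₁.c01, h₂.c01]; ring
    · intro a0 a' b0 b' hs
      have e : (fun l => co (ψ₂ - κ • ψ₁) (wordX l)) = fun l => co ψ₂ (wordX l) - κ * co ψ₁ (wordX l) := by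
        funext l
        rw [co_sub, co_smul]
      rw [e, ss_sub, ss_smul, h₁.st a0 a' b0 b' hs, h₂.st a0 a' b0 b' hs]
      ring
  comp := by
    intro ψ w h
    refine ⟨Pool.Agent.H217R3.DMC.LieX_le h.mem w, ?_, ?_, ?_, ?_⟩
    · rw [co_comp, h.c0]; simp
    · rw [co_comp, h.c1]; simp
    · rw [co_comp, h.c01]; simp
    · intro a0 a' b0 b' hs
      by_cases hw : (a0 :: a').sum + (a0 :: a').length + ((b0 :: b').sum + (b0 :: b').length) = w
      · rw [← h.st a0 a' b0 b' hs]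
        apply ss_weight
        intro l hl
        rw [co_comp, if_pos (by rw [wordX_length, hl, hw])]
      · rw [← ss_zero (a0 :: a') (b0 :: b')]
        apply ss_weight
        intro l hl
        rw [co_comp, if_neg (by rw [wordX_length, hl]; exact hw)]
  lead := fun ψ h r hr hdep => taskLead h.mem h.c1 h.st r hr hdep

/-! ### the derivations and the free Lie algebras -/

lemma exists_der (σ : F2 ℚ) : ∃ D : LieDerivation ℚ (F2 ℚ) (F2 ℚ), IsIharaDer D σ := by
  obtain ⟨D, h1, h2⟩ := Pool.Agent.Helper771.FreeLieGrad.exists_derivation (K := ℚ)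
    (![0, ⁅(FreeLieAlgebra.of ℚ 1 : F2 ℚ), σ⁆] : Fin 2 → F2 ℚ)
  refine ⟨⟨D, fun a b => ?_⟩, ?_, ?_⟩
  · rw [h2, ← lie_skew (D a) b]
    abel
  · exact h1 0
  · exact h1 1

/-- The elements `ψ i` of the free Lie algebra on `x, y` generate, under the Ihara bracket
`[σ, τ] + D_σ τ - D_τ σ`, a free Lie algebra with the basis `ψ i`: there is an injective linear map from the free
Lie algebra on `n` generators that maps the generators to the `ψ i` and the bracket to the Ihara bracket. -/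
def GenFree {n : ℕ} (ψ : Fin n → F2 ℚ) : Prop :=
  ∃ φ : FreeLieAlgebra ℚ (Fin n) →ₗ[ℚ] F2 ℚ, Function.Injective φ ∧
    (∀ i, φ (FreeLieAlgebra.of ℚ i) = ψ i) ∧
    ∀ P Q, ∃ D E : LieDerivation ℚ (F2 ℚ) (F2 ℚ), IsIharaDer D (φ P) ∧ IsIharaDer E (φ Q) ∧
      φ ⁅P, Q⁆ = ⁅φ P, φ Q⁆ + D (φ Q) - E (φ P)

open Pool.Agent.Helper967.FL in
lemma iota_mem {n : ℕ} (u : FreeLieAlgebra ℚ (Fin n)) : (iota u : Al (Fin n)) ∈ LieN n := by
  refine fl_ind (p := fun u => (iota u : Al (Fin n)) ∈ LieN n) ?_ ?_ ?_ ?_ ?_ u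
  · rw [map_zero]; exact (LieN n).zero_mem
  · intro i
    rw [iota_of]
    exact LieSubalgebra.subset_lieSpan ⟨i, rfl⟩
  · intro a b ha hb; rw [map_add]; exact (LieN n).add_mem ha hb
  · intro c a ha; rw [map_smul]; exact (LieN n).smul_mem c ha
  · intro a b ha hb; rw [iota_lie]; exact (LieN n).lie_mem ha hb

open Pool.Agent.Helper967.FL in
theorem genFree_of {n : ℕ} (ψ : Fin n → F2 ℚ) (hinj : Function.Injective (PhiN fun i => bri (ψ i))) :
    GenFree ψ := by
  obtain ⟨hgen, hlie⟩ := Pool.Agent.H358R3.DM.taskFinalN n (fun i => bri (ψ i))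
  set Φ := PhiN fun i => bri (ψ i) with hΦ
  -- the values lie in the range of `bri`
  have hran : ∀ u : FreeLieAlgebra ℚ (Fin n), ∃ v, bri v = Φ (iota u) := by
    intro u
    refine fl_ind (p := fun u => ∃ v, bri v = Φ (iota u)) ?_ ?_ ?_ ?_ ?_ u
    · exact ⟨0, by rw [map_zero, map_zero, map_zero]⟩
    · intro i
      refine ⟨ψ i, ?_⟩
      rw [iota_of]
      exact (hgen i).symm
    · rintro a b ⟨v, hv⟩ ⟨w, hw⟩
      exact ⟨v + w, by rw [map_add, map_add, map_add, hv, hw]⟩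
    · rintro c a ⟨v, hv⟩
      exact ⟨c • v, by rw [map_smul, map_smul, map_smul, hv]⟩
    · rintro a b ⟨v, hv⟩ ⟨w, hw⟩
      obtain ⟨D, hD⟩ := exists_der v
      obtain ⟨E, hE⟩ := exists_der w
      refine ⟨⁅v, w⁆ + D w - E v, ?_⟩
      rw [bri_ihara hD hE, iota_lie, hlie _ (iota_mem a) _ (iota_mem b), hv, hw]
  choose g hg using hran
  have hadd : ∀ a b, g (a + b) = g a + g b := by
    intro a b
    apply bri_injective
    rw [map_add, hg, hg, hg, map_add, map_add]
  have hsmul : ∀ (c : ℚ) a, g (c • a) = c • g a := by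
    intro c a
    apply bri_injective
    rw [map_smul, hg, hg, map_smul, map_smul]
  refine ⟨{ toFun := g, map_add' := hadd, map_smul' := hsmul }, ?_, ?_, ?_⟩
  · intro a b hab
    apply iota_injective
    apply hinj
    show Φ (iota a) = Φ (iota b)
    rw [← hg, ← hg]
    exact congrArg bri hab
  · intro i
    apply bri_injective
    show bri (g _) = _
    rw [hg, iota_of]
    exact hgen i
  · intro P Q
    obtain ⟨D, hD⟩ := exists_der (g P)
    obtain ⟨E, hE⟩ := exists_der (g Q)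
    refine ⟨D, E, hD, hE, ?_⟩
    apply bri_injective
    show bri (g ⁅P, Q⁆) = bri (⁅g P, g Q⁆ + D (g Q) - E (g P))
    rw [bri_ihara hD hE, hg, hg, hg, iota_lie, hlie _ (iota_mem P) _ (iota_mem Q)]

theorem genFree_two (ψ : Fin 2 → F2 ℚ) (h : ∀ i, IsGRT ℚ (ψ i)) (hli : LinearIndependent ℚ ψ) : GenFree ψ := by
  apply genFree_of
  have e : (PhiN fun i => bri (ψ i)) = Phi (bri (ψ 0)) (bri (ψ 1)) := by
    unfold PhiN Phi
    congr 5
    funext i
    fin_cases i <;> rfl
  rw [e]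
  apply Pool.Agent.D0H84.LS.two lp_kk (kk_grt (h 0)) (kk_grt (h 1))
  intro a b hab
  have h1 : bri (a • ψ 0 + b • ψ 1) = 0 := by rw [map_add, map_smul, map_smul, hab]
  have h2 : a • ψ 0 + b • ψ 1 = 0 := bri_injective (by rw [h1, map_zero])
  rw [Fintype.linearIndependent_iff] at hli
  have h3 := hli ![a, b] (by simpa [Fin.sum_univ_two] using h2)
  exact ⟨h3 0, h3 1⟩

/-! ### coefficients -/

lemma eta_wd (u : List (Fin 2)) : eta (wd u) = ((-1 : ℚ) ^ u.count 1) • wd u := by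
  induction u with
  | nil =>
    have h : (wd ([] : List (Fin 2)) : A) = 1 := rfl
    rw [h, map_one]; simp
  | cons i u ih =>
    have h : (wd (i :: u) : A) = x i * wd u := by rw [x, wd_mul]; rfl
    rw [h, map_mul, ih, eta_x]
    fin_cases i
    · show x 0 * _ = ((-1 : ℚ) ^ (List.count 1 ((0 : Fin 2) :: u))) • (x 0 * wd u)
      rw [List.count_cons_of_ne (by decide), mul_smul_comm]
    · show (- x 1) * _ = ((-1 : ℚ) ^ (List.count 1 ((1 : Fin 2) :: u))) • (x 1 * wd u)
      rw [List.count_cons_self, pow_succ, mul_smul_comm, neg_mul, mul_neg_one, neg_smul, smul_neg]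

lemma co_eta (P : A) (l : List (Fin 2)) : co (eta P) l = (-1) ^ l.count 1 * co P l := by
  induction P using al_induction with
  | h1 u =>
    rw [eta_wd, co_smul, co_wd]
    by_cases h : u = l
    · rw [h]
    · rw [if_neg h, mul_zero, mul_zero]
  | h2 P Q hP hQ => rw [map_add, co_add, co_add, hP, hQ]; ring
  | h3 c P hP => rw [map_smul, co_smul, co_smul, hP]; ring

lemma coeff_iota (ψ : F2 ℚ) (w : FreeMonoid (Fin 2)) :
    wordCoeff ℚ ψ w = co (Pool.Agent.Helper967.FL.iota ψ) w.toList := by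
  have key : FreeAlgebra.equivMonoidAlgebraFreeMonoid (toAssoc ℚ ψ) = Pool.Agent.Helper967.FL.iota ψ := by
    refine free_ind (fun ψ => FreeAlgebra.equivMonoidAlgebraFreeMonoid (toAssoc ℚ ψ) =
      Pool.Agent.Helper967.FL.iota ψ) ?_ ?_ ?_ ?_ ?_ ?_ ψ
    · simp
    · intro a b ha hb; rw [map_add, map_add, map_add, ha, hb]
    · intro c a ha; rw [map_smul, map_smul, map_smul, ha]
    · intro a b ha hb
      rw [LieHom.map_lie, Pool.Agent.Helper967.FL.iota_lie, ← ha, ← hb]
      have e : ∀ p q : FreeAlgebra ℚ (Fin 2), ⁅p, q⁆ = p * q - q * p := fun _ _ => rfl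
      rw [e, map_sub, map_mul, map_mul]
    · rw [Pool.Agent.Helper967.FL.iota_of]
      simp [toAssoc, FreeAlgebra.equivMonoidAlgebraFreeMonoid, Pool.Agent.Helper967.FL.lt]
      rfl
    · rw [Pool.Agent.Helper967.FL.iota_of]
      simp [toAssoc, FreeAlgebra.equivMonoidAlgebraFreeMonoid, Pool.Agent.Helper967.FL.lt]
      rfl
  unfold wordCoeff co
  rw [key]
  rfl

lemma co_bri (ψ : F2 ℚ) (l : List (Fin 2)) :
    co (bri ψ) l = (-1) ^ l.count 1 * wordCoeff ℚ ψ (FreeMonoid.ofList l) := by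
  rw [coeff_iota, ← eta_bri, co_eta, FreeMonoid.toList_ofList, ← mul_assoc, ← mul_pow]
  simp

lemma co_bri_ne (ψ : F2 ℚ) (l : List (Fin 2)) :
    co (bri ψ) l ≠ 0 ↔ wordCoeff ℚ ψ (FreeMonoid.ofList l) ≠ 0 := by
  rw [co_bri]
  have : (-1 : ℚ) ^ l.count 1 ≠ 0 := pow_ne_zero _ (by norm_num)
  constructor
  · intro h h2; apply h; rw [h2, mul_zero]
  · intro h; exact mul_ne_zero this h

lemma zero_grt : IsGRT ℚ (0 : F2 ℚ) := IsGRT.zero

theorem genFree_many (n r R : ℕ) (W : Finset ℕ) (ψ : Fin n → F2 ℚ) (wt : Fin n → ℕ) (hr : 1 ≤ r)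
    (hR : R < 2 * r) (hW : ∀ w ∈ W, W.card * R < w) (hwt : ∀ i, wt i ∈ W) (h : ∀ i, IsGRT ℚ (ψ i))
    (hψ : ∀ i u, wordCoeff ℚ (ψ i) u ≠ 0 → u.toList.length = wt i ∧ r ≤ u.toList.count 1)
    (hind : ∀ c : Fin n → ℚ, DepthGE ℚ (R + 1) (∑ i, c i • ψ i) → c = 0) : GenFree ψ := by
  apply genFree_of
  refine Pool.Agent.D0H84.LS.many lp_kk (r := r) (R := R) (W := W) (wt := wt) hr hR hW hwt
    (fun i => kk_grt (h i)) ?_ ?_ ?_ ?_
  · have := kk_grt zero_grt
    rwa [map_zero] at this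
  · intro i u hu
    exact (hψ i _ ((co_bri_ne _ _).1 hu)).1
  · intro i u hu
    exact (hψ i _ ((co_bri_ne _ _).1 hu)).2
  · intro c hc
    apply hind
    intro w hw
    have h1 := hc w.toList (by omega)
    have h2 : cmb (fun i => bri (ψ i)) c = bri (∑ i, c i • ψ i) := by
      unfold cmb
      rw [map_sum]
      exact Finset.sum_congr rfl fun i _ => (map_smul bri (c i) (ψ i)).symm
    rw [h2] at h1
    by_contra hne
    exact (co_bri_ne _ _).2 hne h1

end Pool.Agent.D0H34.FU
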