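import Pool.Agent.D0H34.FU.E

/-! Quasi-shuffle sums and the intertwining property. -/

set_option autoImplicit false

namespace Pool.Agent.D0H34.FU

open Pool.Agent.H777R4.DM Pool.Agent.Helper392_GT

attribute [local instance 100] LieRing.ofAssociativeRing

/-- sum over the quasi-shuffles -/
def ss (a b : List ℕ) (g : List ℕ → ℚ) : ℚ := ((stf a b).map g).sum

lemma stf_nil_left (b : List ℕ) : stf [] b = [b] := by
  unfold stf; rfl

lemma stf_nil_right (a : List ℕ) : stf a [] = [a] := by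
  rcases a with _ | ⟨a, u⟩ <;> simp [stf]

lemma stf_cons (a b : ℕ) (u v : List ℕ) : stf (a :: u) (b :: v) =
    (stf u (b :: v)).map (a :: ·) ++ (stf (a :: u) v).map (b :: ·) ++ (stf u v).map ((a + b + 1) :: ·) := by
  conv_lhs => unfold stf

lemma ss_nil_left (b : List ℕ) (g : List ℕ → ℚ) : ss [] b g = g b := by
  simp [ss, stf_nil_left]

lemma ss_nil_right (a : List ℕ) (g : List ℕ → ℚ) : ss a [] g = g a := by
  simp [ss, stf_nil_right]

lemma ss_cons (a b : ℕ) (u v : List ℕ) (g : List ℕ → ℚ) : ss (a :: u) (b :: v) g =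
    ss u (b :: v) (fun l => g (a :: l)) + ss (a :: u) v (fun l => g (b :: l)) +
      ss u v (fun l => g ((a + b + 1) :: l)) := by
  unfold ss
  rw [stf_cons]
  simp only [List.map_append, List.map_map, List.sum_append]
  rfl

lemma ss_zero (a b : List ℕ) : ss a b (fun _ => 0) = 0 := by
  unfold ss
  induction stf a b with
  | nil => rfl
  | cons l L ih => simp

lemma ss_add (a b : List ℕ) (g h : List ℕ → ℚ) : ss a b (fun l => g l + h l) = ss a b g + ss a b h := by
  unfold ss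
  induction stf a b with
  | nil => simp
  | cons l L ih => simp only [List.map_cons, List.sum_cons, ih]; ring

lemma ss_neg (a b : List ℕ) (g : List ℕ → ℚ) : ss a b (fun l => - g l) = - ss a b g := by
  unfold ss
  induction stf a b with
  | nil => simp
  | cons l L ih => simp only [List.map_cons, List.sum_cons, ih]; ring

lemma ss_sub (a b : List ℕ) (g h : List ℕ → ℚ) : ss a b (fun l => g l - h l) = ss a b g - ss a b h := by
  unfold ss
  induction stf a b with
  | nil => simp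
  | cons l L ih => simp only [List.map_cons, List.sum_cons, ih]; ring

lemma ss_congr {a b : List ℕ} {g h : List ℕ → ℚ} (H : ∀ l, a.sum + b.sum ≤ l.sum → g l = h l) :
    ss a b g = ss a b h := by
  have key : ∀ a b : List ℕ, ∀ l ∈ stf a b, a.sum + b.sum ≤ l.sum := by
    intro a b
    induction a, b using stf.induct with
    | case1 b => intro l hl; rw [stf_nil_left] at hl; simp at hl; subst hl; simp
    | case2 a u => intro l hl; rw [stf_nil_right] at hl; simp at hl; subst hl; simp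
    | case3 a u b v ih1 ih2 ih3 =>
      intro l hl
      rw [stf_cons] at hl
      simp only [List.mem_append, List.mem_map] at hl
      rcases hl with (⟨l', h1, rfl⟩ | ⟨l', h1, rfl⟩) | ⟨l', h1, rfl⟩
      · have := ih1 l' h1
        simp only [List.sum_cons] at this ⊢; omega
      · have := ih2 l' h1
        simp only [List.sum_cons] at this ⊢; omega
      · have := ih3 l' h1
        simp only [List.sum_cons] at this ⊢; omega
  unfold ss
  congr 1
  apply List.map_congr_left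
  intro l hl
  exact H l (key a b l hl)

/-- the terms with `x`-mark at the head: `a₀, w` are the first letters -/
def SX (b0 : ℕ) (b' : List ℕ) (a0 : ℕ) (f : F) : List ℕ → List ℕ → ℚ
  | w, [] => ss [] b' (fun l => f (.x a0 w (b0 :: l)))
  | w, q0 :: q => ss (q0 :: q) b' (fun l => f (.x a0 w (b0 :: l))) +
      ss q b' (fun l => f (.x a0 w ((q0 + b0 + 1) :: l))) + SX b0 b' a0 f (w ++ [q0]) q

/-- the terms with `y`-mark at the head: `b₀, w` are the first letters -/
def SY (a0 : ℕ) (a' : List ℕ) (b0 : ℕ) (f : F) : List ℕ → List ℕ → ℚ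
  | w, [] => ss a' [] (fun l => f (.y b0 w (a0 :: l)))
  | w, q0 :: q => ss a' (q0 :: q) (fun l => f (.y b0 w (a0 :: l))) +
      ss a' q (fun l => f (.y b0 w ((a0 + q0 + 1) :: l))) + SY a0 a' b0 f (w ++ [q0]) q

/-- the functional `L_{a,b}` -/
def LL (f : F) : List ℕ → List ℕ → ℚ
  | [], b => f (mkY b [])
  | a0 :: a', [] => f (mkX (a0 :: a') [])
  | a0 :: a', b0 :: b' => SX b0 b' a0 f [] a' + SY a0 a' b0 f [] b' +
      ss a' b' (fun l => f (.c ((a0 + b0 + 1) :: l)))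

/-! ### `A_x` -/

lemma SX_Ax0 (b0 : ℕ) (b' : List ℕ) (f : F) : ∀ q w, SX b0 b' 0 (axF f) w q = 0
  | [], w => by
    simp only [SX, axF, ss_zero]
  | q0 :: q, w => by
    simp only [SX, axF, ss_zero]
    rw [SX_Ax0 b0 b' f q (w ++ [q0])]
    simp

lemma SX_Ax1 (b0 : ℕ) (b' : List ℕ) (a0 : ℕ) (f : F) : ∀ q w,
    SX b0 b' (a0 + 1) (axF f) w q = SX b0 b' a0 f w q
  | [], w => by
    simp only [SX, axF]
  | q0 :: q, w => by
    simp only [SX, axF]
    rw [SX_Ax1 b0 b' a0 f q (w ++ [q0])]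

lemma SY_Ax1 (a0 : ℕ) (a' : List ℕ) (b0 : ℕ) (f : F) : ∀ q w,
    SY (a0 + 1) a' b0 (axF f) w q = SY a0 a' b0 f w q
  | [], w => by
    simp only [SY, axF]
  | q0 :: q, w => by
    simp only [SY]
    rw [SY_Ax1 a0 a' b0 f q (w ++ [q0])]
    have e : a0 + 1 + q0 = a0 + q0 + 1 := by ring
    simp only [axF, e]

lemma mvY_snoc (b0 q0 : ℕ) (w l : List ℕ) : mv mkY (b0 :: (w ++ [q0])) l = .y b0 w (q0 :: l) := mv_conc _ _ _ _ _

lemma mvX_snoc (b0 q0 : ℕ) (w l : List ℕ) : mv mkX (b0 :: (w ++ [q0])) l = .x b0 w (q0 :: l) := mv_conc _ _ _ _ _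

lemma SY_Ax0 (a' : List ℕ) (b0 : ℕ) (f : F) : ∀ q w,
    SY 0 a' b0 (axF f) w q = - ss a' q (fun l => f (mv mkY (b0 :: w) l))
  | [], w => by
    simp only [SY, axF, ss_neg]
  | q0 :: q, w => by
    simp only [SY]
    rw [SY_Ax0 a' b0 f q (w ++ [q0])]
    have e : 0 + q0 = q0 := by ring
    simp only [axF, e, ss_neg, mvY_snoc]
    ring

/-- the operator `A ⊗ 1` -/
def a1F (h : List ℕ → List ℕ → ℚ) : List ℕ → List ℕ → ℚ := fun a b => aF (fun a => h a b) a

lemma LL_Ax (f : F) (a b : List ℕ) : LL (axF f) a b = a1F (LL f) a b := by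
  rcases a with _ | ⟨_ | a0, a'⟩
  · rcases b with _ | ⟨b0, b'⟩ <;> rfl
  · rcases b with _ | ⟨b0, b'⟩
    · rfl
    · show SX b0 b' 0 (axF f) [] a' + SY 0 a' b0 (axF f) [] b' +
        ss a' b' (fun l => axF f (.c ((0 + b0 + 1) :: l))) = 0
      rw [SX_Ax0, SY_Ax0]
      simp only [mv_one, mkY, zero_add, axF]
      ring
  · rcases b with _ | ⟨b0, b'⟩
    · rfl
    · show SX b0 b' (a0 + 1) (axF f) [] a' + SY (a0 + 1) a' b0 (axF f) [] b' +
        ss a' b' (fun l => axF f (.c ((a0 + 1 + b0 + 1) :: l))) = SX b0 b' a0 f [] a' + SY a0 a' b0 f [] b' +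
        ss a' b' (fun l => f (.c ((a0 + b0 + 1) :: l)))
      rw [SX_Ax1, SY_Ax1]
      have e : a0 + 1 + b0 = a0 + b0 + 1 := by ring
      simp only [axF, e]

/-! ### `B_x` -/

lemma SX_Bx1 (b0 : ℕ) (b' : List ℕ) (a0 : ℕ) (f : F) : ∀ q w, SX b0 b' (a0 + 1) (bxF f) w q = 0
  | [], w => by
    simp only [SX, bxF, ss_zero]
  | q0 :: q, w => by
    simp only [SX, bxF, ss_zero]
    rw [SX_Bx1 b0 b' a0 f q (w ++ [q0])]
    simp

lemma SY_Bx1 (a0 : ℕ) (a' : List ℕ) (b0 : ℕ) (f : F) : ∀ q w, SY (a0 + 1) a' b0 (bxF f) w q = 0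
  | [], w => by
    simp only [SY, bxF, ss_zero]
  | q0 :: q, w => by
    simp only [SY]
    rw [SY_Bx1 a0 a' b0 f q (w ++ [q0])]
    simp only [bxF, ss_zero]
    simp

/-- `B_x` on the `x`-terms, after the first level -/
lemma SX_Bx0 (b0 : ℕ) (b' : List ℕ) (c : ℕ) (f : F) : ∀ q w,
    SX b0 b' 0 (bxF f) (c :: w) q = SX b0 b' c f w q
  | [], w => by
    simp only [SX, bxF, mkX]
  | q0 :: q, w => by
    simp only [SX, bxF, mkX]
    rw [List.cons_append, SX_Bx0 b0 b' c f q (w ++ [q0])]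

/-- `B_x` on the `y`-terms -/
lemma SY_Bx0 (c : ℕ) (a' : List ℕ) (b0 : ℕ) (f : F) : ∀ q w,
    SY 0 (c :: a') b0 (bxF f) w q = SY c a' b0 f w q - ss (c :: a') q (fun l => f (mv mkY (b0 :: w) l))
  | [], w => by
    simp only [SY, bxF, ss_sub, ss_nil_right]
  | q0 :: q, w => by
    have e : 0 + q0 + 1 = q0 + 1 := by ring
    simp only [SY, e]
    rw [SY_Bx0 c a' b0 f q (w ++ [q0])]
    simp only [bxF, ss_sub, ss_zero, mvY_snoc]
    rw [ss_cons c q0 a' q (fun l => f (.y b0 w l))]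
    ring

lemma SY_Bx0' (b0 : ℕ) (f : F) : ∀ q w,
    SY 0 [] b0 (bxF f) w q = f (.y b0 (w ++ q) []) - f (mv mkY (b0 :: w) q)
  | [], w => by
    simp only [SY, bxF, ss_nil_right, List.append_nil]
  | q0 :: q, w => by
    have e : 0 + q0 + 1 = q0 + 1 := by ring
    simp only [SY, e]
    rw [SY_Bx0' b0 f q (w ++ [q0])]
    simp only [bxF, ss_nil_left, mvY_snoc, List.append_assoc, List.singleton_append]
    ring

/-- the operator `B ⊗ 1` -/
def b1F (h : List ℕ → List ℕ → ℚ) : List ℕ → List ℕ → ℚ := fun a b => bF (fun a => h a b) a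

/-- the operator `1 ⊗ B` -/
def b2F (h : List ℕ → List ℕ → ℚ) : List ℕ → List ℕ → ℚ := fun a b => bF (fun b => h a b) b

lemma LL_Bx (f : F) (a b : List ℕ) : LL (bxF f) a b = b1F (LL f) a b := by
  rcases a with _ | ⟨_ | a0, a'⟩
  · rcases b with _ | ⟨b0, b'⟩ <;> rfl
  · rcases b with _ | ⟨b0, b'⟩
    · show f (mkX a' []) = LL f a' []
      rcases a' with _ | ⟨a1, a'⟩ <;> rfl
    · show SX b0 b' 0 (bxF f) [] a' + SY 0 a' b0 (bxF f) [] b' +
        ss a' b' (fun l => bxF f (.c ((0 + b0 + 1) :: l))) = LL f a' (b0 :: b')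
      rcases a' with _ | ⟨a1, a'⟩
      · rw [SY_Bx0']
        simp only [SX, bxF, ss_nil_left, mkX, mv_one, mkY, LL, List.nil_append]
        ring
      · rw [SY_Bx0]
        simp only [SX, List.nil_append]
        rw [SX_Bx0]
        simp only [bxF, ss_zero, mv_one, mkY, mkX, LL]
        ring
  · rcases b with _ | ⟨b0, b'⟩
    · rfl
    · show SX b0 b' (a0 + 1) (bxF f) [] a' + SY (a0 + 1) a' b0 (bxF f) [] b' +
        ss a' b' (fun l => bxF f (.c ((a0 + 1 + b0 + 1) :: l))) = 0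
      rw [SX_Bx1, SY_Bx1]
      simp only [bxF, ss_zero, add_zero]

/-! ### `B_y` -/

lemma SY_By1 (a0 : ℕ) (a' : List ℕ) (b0 : ℕ) (f : F) : ∀ q w, SY a0 a' (b0 + 1) (byF f) w q = 0
  | [], w => by
    simp only [SY, byF, ss_zero]
  | q0 :: q, w => by
    simp only [SY, byF, ss_zero]
    rw [SY_By1 a0 a' b0 f q (w ++ [q0])]
    simp

lemma SX_By1 (b0 : ℕ) (b' : List ℕ) (a0 : ℕ) (f : F) : ∀ q w, SX (b0 + 1) b' a0 (byF f) w q = 0
  | [], w => by
    simp only [SX, byF, ss_zero]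
  | q0 :: q, w => by
    simp only [SX]
    rw [SX_By1 b0 b' a0 f q (w ++ [q0])]
    simp only [byF, ss_zero]
    simp

lemma SY_By0 (a0 : ℕ) (a' : List ℕ) (c : ℕ) (f : F) : ∀ q w,
    SY a0 a' 0 (byF f) (c :: w) q = SY a0 a' c f w q
  | [], w => by
    simp only [SY, byF, mkY]
  | q0 :: q, w => by
    simp only [SY, byF, mkY]
    rw [List.cons_append, SY_By0 a0 a' c f q (w ++ [q0])]

lemma SX_By0 (c : ℕ) (b' : List ℕ) (a0 : ℕ) (f : F) : ∀ q w,
    SX 0 (c :: b') a0 (byF f) w q = SX c b' a0 f w q - ss q (c :: b') (fun l => f (mv mkX (a0 :: w) l))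
  | [], w => by
    simp only [SX, byF, ss_sub, ss_nil_left]
  | q0 :: q, w => by
    have e : q0 + 0 + 1 = q0 + 1 := by ring
    simp only [SX, e]
    rw [SX_By0 c b' a0 f q (w ++ [q0])]
    simp only [byF, ss_sub, ss_zero, mvX_snoc]
    rw [ss_cons q0 c q b' (fun l => f (.x a0 w l))]
    ring

lemma SX_By0' (a0 : ℕ) (f : F) : ∀ q w,
    SX 0 [] a0 (byF f) w q = f (.x a0 (w ++ q) []) - f (mv mkX (a0 :: w) q)
  | [], w => by
    simp only [SX, byF, ss_nil_right, List.append_nil]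
  | q0 :: q, w => by
    have e : q0 + 0 + 1 = q0 + 1 := by ring
    simp only [SX, e]
    rw [SX_By0' a0 f q (w ++ [q0])]
    simp only [byF, ss_nil_right, mvX_snoc, List.append_assoc, List.singleton_append]
    ring

lemma LL_By (f : F) (a b : List ℕ) : LL (byF f) a b = b2F (LL f) a b := by
  rcases b with _ | ⟨_ | b0, b'⟩
  · rcases a with _ | ⟨a0, a'⟩ <;> rfl
  · rcases a with _ | ⟨a0, a'⟩
    · rfl
    · show SX 0 b' a0 (byF f) [] a' + SY a0 a' 0 (byF f) [] b' +
        ss a' b' (fun l => byF f (.c ((a0 + 0 + 1) :: l))) = LL f (a0 :: a') b'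
      rcases b' with _ | ⟨b1, b'⟩
      · rw [SX_By0']
        simp only [SY, byF, ss_nil_right, mkX, mv_one, mkY, LL, List.nil_append]
        ring
      · rw [SX_By0]
        simp only [SY, List.nil_append]
        rw [SY_By0]
        simp only [byF, ss_zero, mv_one, mkY, mkX, LL]
        ring
  · rcases a with _ | ⟨a0, a'⟩
    · rfl
    · show SX (b0 + 1) b' a0 (byF f) [] a' + SY a0 a' (b0 + 1) (byF f) [] b' +
        ss a' b' (fun l => byF f (.c ((a0 + (b0 + 1) + 1) :: l))) = 0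
      rw [SX_By1, SY_By1]
      simp only [byF, ss_zero, add_zero]

/-! ### `C` -/

lemma SX_C (b0 : ℕ) (b' : List ℕ) (a0 : ℕ) (f : F) : ∀ q w, SX b0 b' a0 (cF f) w q = 0
  | [], w => by
    simp only [SX, cF, ss_zero]
  | q0 :: q, w => by
    simp only [SX, cF, ss_zero]
    rw [SX_C b0 b' a0 f q (w ++ [q0])]
    simp

lemma SY_C (a0 : ℕ) (a' : List ℕ) (b0 : ℕ) (f : F) : ∀ q w, SY a0 a' b0 (cF f) w q = 0
  | [], w => by
    simp only [SY, cF, ss_zero]
  | q0 :: q, w => by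
    simp only [SY, cF, ss_zero]
    rw [SY_C a0 a' b0 f q (w ++ [q0])]
    simp

lemma LL_C (f : F) (a b : List ℕ) : LL (cF f) a b = 0 := by
  rcases a with _ | ⟨a0, a'⟩
  · rcases b with _ | ⟨b0, b'⟩ <;> rfl
  · rcases b with _ | ⟨b0, b'⟩
    · rfl
    · simp only [LL, SX_C, SY_C, cF, ss_zero, add_zero]

end Pool.Agent.D0H34.FU
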