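import Pool.Agent.D0H34.FU.Br
import Pool.Agent.H988R3.DM.TwoD

/-! The lowest depth part is shuffle primitive. -/

set_option autoImplicit false

namespace Pool.Agent.D0H34.FU

open Pool.Agent.H777R4.DM Pool.Agent.Helper392_GT
open Pool.Agent.H988R3.DM (shΔ_cons inl_wd inr_wd shΔ_wd_nil ofList_cons_ne)

attribute [local instance 100] LieRing.ofAssociativeRing

/-- sum over the shuffles -/
def sq : List ℕ → List ℕ → (List ℕ → ℚ) → ℚ
  | [], b, g => g b
  | a :: u, [], g => g (a :: u)
  | a :: u, b :: v, g => sq u (b :: v) (fun l => g (a :: l)) + sq (a :: u) v (fun l => g (b :: l))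
termination_by u v => u.length + v.length

lemma sq_nil_left (b : List ℕ) (g : List ℕ → ℚ) : sq [] b g = g b := by unfold sq; rfl

lemma sq_nil_right (a : List ℕ) (g : List ℕ → ℚ) : sq a [] g = g a := by
  rcases a with _ | ⟨a, u⟩ <;> simp [sq]

lemma sq_cons (a b : ℕ) (u v : List ℕ) (g : List ℕ → ℚ) : sq (a :: u) (b :: v) g =
    sq u (b :: v) (fun l => g (a :: l)) + sq (a :: u) v (fun l => g (b :: l)) := by
  conv_lhs => unfold sq

lemma sq_zero : ∀ a b : List ℕ, sq a b (fun _ => 0) = 0
  | [], b => by rw [sq_nil_left]
  | a :: u, [] => by rw [sq_nil_right]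
  | a :: u, b :: v => by
    rw [sq_cons, sq_zero u (b :: v), sq_zero (a :: u) v, add_zero]
termination_by u v => u.length + v.length

lemma sq_add : ∀ (a b : List ℕ) (g h : List ℕ → ℚ), sq a b (fun l => g l + h l) = sq a b g + sq a b h
  | [], b, g, h => by rw [sq_nil_left, sq_nil_left, sq_nil_left]
  | a :: u, [], g, h => by rw [sq_nil_right, sq_nil_right, sq_nil_right]
  | a :: u, b :: v, g, h => by
    rw [sq_cons, sq_cons, sq_cons, sq_add u (b :: v), sq_add (a :: u) v]
    ring
termination_by u v => u.length + v.length

lemma sq_smul : ∀ (a b : List ℕ) (c : ℚ) (g : List ℕ → ℚ), sq a b (fun l => c * g l) = c * sq a b g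
  | [], b, c, g => by rw [sq_nil_left, sq_nil_left]
  | a :: u, [], c, g => by rw [sq_nil_right, sq_nil_right]
  | a :: u, b :: v, c, g => by
    rw [sq_cons, sq_cons, sq_smul u (b :: v), sq_smul (a :: u) v]
    ring
termination_by u v => u.length + v.length

/-- only lists with the right length and only letters of `a`, `b` -/
lemma sq_congr : ∀ (a b : List ℕ) (g h : List ℕ → ℚ),
    (∀ l, l.length = a.length + b.length → (a.sum + b.sum = 0 → l.sum = 0) → g l = h l) → sq a b g = sq a b h
  | [], b, g, h, H => by
    rw [sq_nil_left, sq_nil_left]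
    exact H b (by simp) (by simp)
  | a :: u, [], g, h, H => by
    rw [sq_nil_right, sq_nil_right]
    exact H (a :: u) (by simp) (by simp)
  | a :: u, b :: v, g, h, H => by
    rw [sq_cons, sq_cons]
    congr 1
    · apply sq_congr u (b :: v)
      intro l h1 h2
      apply H
      · simp only [List.length_cons] at h1 ⊢; omega
      · intro h3
        simp only [List.sum_cons] at h2 h3 ⊢
        have := h2 (by omega)
        omega
    · apply sq_congr (a :: u) v
      intro l h1 h2
      apply H
      · simp only [List.length_cons] at h1 ⊢; omega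
      · intro h3
        simp only [List.sum_cons] at h2 h3 ⊢
        have := h2 (by omega)
        omega
termination_by u v => u.length + v.length

/-- functions vanishing on short lists -/
lemma ss_short : ∀ (a b : List ℕ) (g : List ℕ → ℚ), (∀ l, l.length < a.length + b.length → g l = 0) →
    ss a b g = sq a b g
  | [], b, g, H => by rw [ss_nil_left, sq_nil_left]
  | a :: u, [], g, H => by rw [ss_nil_right, sq_nil_right]
  | a :: u, b :: v, g, H => by
    rw [ss_cons, sq_cons]
    rw [ss_short u (b :: v) (fun l => g (a :: l)) (by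
      intro l hl
      apply H
      simp only [List.length_cons] at hl ⊢; omega)]
    rw [ss_short (a :: u) v (fun l => g (b :: l)) (by
      intro l hl
      apply H
      simp only [List.length_cons] at hl ⊢; omega)]
    rw [ss_short u v (fun l => g ((a + b + 1) :: l)) (by
      intro l hl
      apply H
      simp only [List.length_cons] at hl ⊢; omega)]
    have : sq u v (fun l => g ((a + b + 1) :: l)) = sq u v (fun _ => 0) := by
      apply sq_congr
      intro l hl _
      apply H
      simp only [List.length_cons]; omega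
    rw [this, sq_zero, add_zero]
termination_by u v => u.length + v.length

/-- the coefficient of a pair of words -/
noncomputable def co2 (X : AYY) (a b : List ℕ) : ℚ := X.coeff (FreeMonoid.ofList a, FreeMonoid.ofList b)

lemma co2_add (X Y : AYY) (a b : List ℕ) : co2 (X + Y) a b = co2 X a b + co2 Y a b := by
  unfold co2
  rw [MonoidAlgebra.coeff_add, Finsupp.add_apply]

lemma co2_smul (c : ℚ) (X : AYY) (a b : List ℕ) : co2 (c • X) a b = c * co2 X a b := by
  unfold co2
  rw [MonoidAlgebra.coeff_smul, Finsupp.smul_apply, smul_eq_mul]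

lemma co2_inl_nil (k : ℕ) (X : AYY) (b : List ℕ) : co2 (inl (wd [k]) * X) [] b = 0 := by
  unfold co2
  rw [inl_wd, MonoidAlgebra.coeff_single_mul_of_forall_mul_ne]
  intro d h
  exact ofList_cons_ne k d.1 (congrArg Prod.fst h)

lemma co2_inr_nil (k : ℕ) (X : AYY) (a : List ℕ) : co2 (inr (wd [k]) * X) a [] = 0 := by
  unfold co2
  rw [inr_wd, MonoidAlgebra.coeff_single_mul_of_forall_mul_ne]
  intro d h
  exact ofList_cons_ne k d.2 (congrArg Prod.snd h)

lemma co2_inl_cons (k a : ℕ) (X : AYY) (u b : List ℕ) :
    co2 (inl (wd [k]) * X) (a :: u) b = if k = a then co2 X u b else 0 := by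
  unfold co2
  rw [inl_wd]
  by_cases hka : k = a
  · subst hka
    rw [if_pos rfl, MonoidAlgebra.coeff_single_mul_eq_mul_coeff (FreeMonoid.ofList u, FreeMonoid.ofList b),
      one_mul]
    intro m' _
    constructor
    · intro h
      have h1 := congrArg (fun z => FreeMonoid.toList z.1) h
      have h2 := congrArg Prod.snd h
      simp at h1 h2
      ext1
      · exact (by rw [← h1]; rfl : m'.1 = FreeMonoid.ofList u)
      · exact h2
    · rintro rfl
      rfl
  · rw [if_neg hka, MonoidAlgebra.coeff_single_mul_of_forall_mul_ne]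
    intro d h
    have h2 := congrArg (fun z => FreeMonoid.toList z.1) h
    simp at h2
    exact hka h2.1

lemma co2_inr_cons (k a : ℕ) (X : AYY) (u b : List ℕ) :
    co2 (inr (wd [k]) * X) b (a :: u) = if k = a then co2 X b u else 0 := by
  unfold co2
  rw [inr_wd]
  by_cases hka : k = a
  · subst hka
    rw [if_pos rfl, MonoidAlgebra.coeff_single_mul_eq_mul_coeff (FreeMonoid.ofList b, FreeMonoid.ofList u),
      one_mul]
    intro m' _
    constructor
    · intro h
      have h1 := congrArg Prod.fst h
      have h2 := congrArg (fun z => FreeMonoid.toList z.2) h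
      simp at h1 h2
      ext1
      · exact h1
      · exact (by rw [← h2]; rfl : m'.2 = FreeMonoid.ofList u)
    · rintro rfl
      rfl
  · rw [if_neg hka, MonoidAlgebra.coeff_single_mul_of_forall_mul_ne]
    intro d h
    have h2 := congrArg (fun z => FreeMonoid.toList z.2) h
    simp at h2
    exact hka h2.1

lemma co2_one (a b : List ℕ) : co2 1 a b = if a = [] ∧ b = [] then 1 else 0 := by
  classical
  unfold co2
  rw [MonoidAlgebra.one_def, MonoidAlgebra.coeff_single, Finsupp.single_apply]
  by_cases h : a = [] ∧ b = []
  · obtain ⟨rfl, rfl⟩ := h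
    rw [if_pos (show (1 : FreeMonoid ℕ × FreeMonoid ℕ) = (FreeMonoid.ofList [], FreeMonoid.ofList []) from rfl)]
    simp
  · rw [if_neg h, if_neg]
    intro h1
    apply h
    have h2 := congrArg (fun z => FreeMonoid.toList z.1) h1
    have h3 := congrArg (fun z => FreeMonoid.toList z.2) h1
    exact ⟨h2.symm, h3.symm⟩

lemma co2_sh_wd (w : List ℕ) : ∀ a b : List ℕ,
    co2 (shΔ (wd w)) a b = sq a b (fun l => if w = l then 1 else 0) := by
  induction w with
  | nil =>
    intro a b
    rw [shΔ_wd_nil, co2_one]
    rcases a with _ | ⟨a, u⟩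
    · rw [sq_nil_left]
      rcases b with _ | ⟨b, v⟩ <;> simp
    · rcases b with _ | ⟨b, v⟩
      · rw [sq_nil_right]; simp
      · rw [sq_cons]
        simp [sq_zero]
  | cons k w ih =>
    intro a b
    rw [shΔ_cons, add_mul, co2_add]
    rcases a with _ | ⟨a, u⟩
    · rw [sq_nil_left, co2_inl_nil, zero_add]
      rcases b with _ | ⟨b, v⟩
      · rw [co2_inr_nil]; simp
      · rw [co2_inr_cons, ih, sq_nil_left]
        by_cases hk : k = b
        · subst hk; simp
        · simp [hk]
    · rcases b with _ | ⟨b, v⟩
      · rw [sq_nil_right, co2_inr_nil, add_zero, co2_inl_cons, ih, sq_nil_right]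
        by_cases hk : k = a
        · subst hk; simp
        · simp [hk]
      · rw [sq_cons, co2_inl_cons, co2_inr_cons, ih, ih]
        congr 1
        · by_cases hk : k = a
          · subst hk; simp
          · simp [hk, sq_zero]
        · by_cases hk : k = b
          · subst hk; simp
          · simp [hk, sq_zero]

lemma co2_sh (P : AY) (a b : List ℕ) : co2 (shΔ P) a b = sq a b (co P) := by
  induction P using al_induction with
  | h1 w =>
    rw [co2_sh_wd]
    congr 1
    funext l
    rw [co_wd]
  | h2 P Q hP hQ =>
    rw [map_add, co2_add, hP, hQ, ← sq_add]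
    exact congrArg (sq a b) (funext fun l => (co_add P Q l).symm)
  | h3 c P hP =>
    rw [map_smul, co2_smul, hP, ← sq_smul]
    exact congrArg (sq a b) (funext fun l => (co_smul c P l).symm)

lemma co2_inl (P : AY) (a b : List ℕ) : co2 (inl P) a b = if b = [] then co P a else 0 := by
  classical
  induction P using al_induction with
  | h1 w =>
    rw [co_wd]
    unfold co2 inl wd
    rw [MonoidAlgebra.of_apply]
    have : MonoidAlgebra.mapDomainAlgHom ℚ ℚ (MonoidHom.inl (FreeMonoid ℕ) (FreeMonoid ℕ))
        (MonoidAlgebra.single (FreeMonoid.ofList w) 1) =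
        MonoidAlgebra.single (FreeMonoid.ofList w, (1 : FreeMonoid ℕ)) (1 : ℚ) := by simp
    rw [this, MonoidAlgebra.coeff_single, Finsupp.single_apply]
    by_cases hb : b = []
    · subst hb
      rw [if_pos rfl]
      by_cases hw : w = a
      · subst hw
        rw [if_pos rfl, if_pos (show (FreeMonoid.ofList w, (1 : FreeMonoid ℕ)) =
          (FreeMonoid.ofList w, FreeMonoid.ofList []) from rfl)]
      · rw [if_neg hw, if_neg]
        intro h
        have h2 := congrArg (fun z => FreeMonoid.toList z.1) h
        simp at h2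
        exact hw h2
    · rw [if_neg hb, if_neg]
      intro h
      have h2 := congrArg (fun z => FreeMonoid.toList z.2) h
      exact hb h2.symm
  | h2 P Q hP hQ => rw [map_add, co2_add, hP, hQ, co_add]; split_ifs <;> ring
  | h3 c P hP => rw [map_smul, co2_smul, hP, co_smul]; split_ifs <;> ring

lemma co2_inr (P : AY) (a b : List ℕ) : co2 (inr P) a b = if a = [] then co P b else 0 := by
  classical
  induction P using al_induction with
  | h1 w =>
    rw [co_wd]
    unfold co2 inr wd
    rw [MonoidAlgebra.of_apply]
    have : MonoidAlgebra.mapDomainAlgHom ℚ ℚ (MonoidHom.inr (FreeMonoid ℕ) (FreeMonoid ℕ))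
        (MonoidAlgebra.single (FreeMonoid.ofList w) 1) =
        MonoidAlgebra.single ((1 : FreeMonoid ℕ), FreeMonoid.ofList w) (1 : ℚ) := by simp
    rw [this, MonoidAlgebra.coeff_single, Finsupp.single_apply]
    by_cases hb : a = []
    · subst hb
      rw [if_pos rfl]
      by_cases hw : w = b
      · subst hw
        rw [if_pos rfl, if_pos (show ((1 : FreeMonoid ℕ), FreeMonoid.ofList w) =
          (FreeMonoid.ofList [], FreeMonoid.ofList w) from rfl)]
      · rw [if_neg hw, if_neg]
        intro h
        have h2 := congrArg (fun z => FreeMonoid.toList z.2) h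
        simp at h2
        exact hw h2
    · rw [if_neg hb, if_neg]
      intro h
      have h2 := congrArg (fun z => FreeMonoid.toList z.1) h
      exact hb h2.symm
  | h2 P Q hP hQ => rw [map_add, co2_add, hP, hQ, co_add]; split_ifs <;> ring
  | h3 c P hP => rw [map_smul, co2_smul, hP, co_smul]; split_ifs <;> ring

/-- a criterion for primitive elements -/
lemma prim_of {P : AY} (h0 : co P [] = 0)
    (h : ∀ a u b v, sq (a :: u) (b :: v) (co P) = 0) : Prim P := by
  unfold Prim
  apply MonoidAlgebra.ext
  ext ⟨m, n⟩
  show co2 (shΔ P) (FreeMonoid.toList m) (FreeMonoid.toList n) =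
    co2 (inl P + inr P) (FreeMonoid.toList m) (FreeMonoid.toList n)
  rw [co2_sh, co2_add, co2_inl, co2_inr]
  generalize FreeMonoid.toList m = a
  generalize FreeMonoid.toList n = b
  rcases a with _ | ⟨a, u⟩
  · rw [sq_nil_left]
    rcases b with _ | ⟨b, v⟩
    · simp [h0]
    · simp
  · rcases b with _ | ⟨b, v⟩
    · rw [sq_nil_right]; simp
    · rw [h]; simp

lemma wordX_zero (l : List ℕ) (h : l.sum = 0) : wordX l = List.replicate l.length 1 := by
  induction l with
  | nil => rfl
  | cons a l ih =>
    simp only [List.sum_cons] at h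
    have ha : a = 0 := by omega
    subst ha
    simp only [wordX, List.replicate_zero, List.nil_append, List.length_cons, List.replicate_succ]
    rw [ih (by omega)]

theorem taskLead {ψ : A} (hmem : ψ ∈ LieX) (c1 : co ψ [1] = 0)
    (hst : ∀ (a0 : ℕ) (a' : List ℕ) (b0 : ℕ) (b' : List ℕ), a0 + a'.sum + b0 + b'.sum ≠ 0 →
      ss (a0 :: a') (b0 :: b') (fun l => co ψ (wordX l)) = 0)
    (r : ℕ) (hr : 1 ≤ r) (hdep : ∀ u, co ψ u ≠ 0 → r ≤ u.count 1) : Prim (Fp r ψ 0) := by
  have hF : ∀ l, co (Fp r ψ 0) l = if l.length = r then co ψ (wordX l) else 0 := by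
    intro l
    rw [co_Fp, List.replicate_zero, List.append_nil]
  apply prim_of
  · rw [hF, if_neg]
    simp only [List.length_nil]; omega
  · intro a u b v
    by_cases hlen : (a :: u).length + (b :: v).length = r
    · have e : sq (a :: u) (b :: v) (co (Fp r ψ 0)) = sq (a :: u) (b :: v) (fun l => co ψ (wordX l)) := by
        apply sq_congr
        intro l hl _
        rw [hF, if_pos (by omega)]
      rw [e]
      by_cases hs : a + u.sum + b + v.sum ≠ 0
      · rw [← hst a u b v hs]
        symm
        apply ss_short
        intro l hl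
        by_contra hne
        have := hdep _ hne
        rw [wordX_count] at this
        omega
      · push Not at hs
        rw [← sq_zero (a :: u) (b :: v)]
        apply sq_congr
        intro l hl hl2
        rw [wordX_zero l (hl2 (by simp only [List.sum_cons]; omega))]
        exact Pool.Agent.D0H84.LS.ones hmem c1 _ (by simp only [List.length_cons] at hl; omega)
    · rw [← sq_zero (a :: u) (b :: v)]
      apply sq_congr
      intro l hl _
      rw [hF, if_neg (by omega)]

end Pool.Agent.D0H34.FU
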