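import Pool.Agent.D0H34.FU.Stm

/-! The relations of the operators. -/

set_option autoImplicit false

namespace Pool.Agent.D0H34.FU

open Pool.Agent.H777R4.DM Pool.Agent.Helper392_GT

attribute [local instance 100] LieRing.ofAssociativeRing

lemma cases3 (u : List ℕ) : u = [] ∨ (∃ b, u = [b]) ∨ ∃ a u' b, u = a :: (u' ++ [b]) := by
  rcases u with _ | ⟨a, u⟩
  · exact Or.inl rfl
  · rcases List.eq_nil_or_concat u with rfl | ⟨u', b, rfl⟩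
    · exact Or.inr (Or.inl ⟨a, rfl⟩)
    · exact Or.inr (Or.inr ⟨a, u', b, by simp⟩)

lemma mv_one (mk : List ℕ → List ℕ → St) (a : ℕ) (v : List ℕ) : mv mk [a] v = mk [] (a :: v) := rfl

lemma mv_conc (mk : List ℕ → List ℕ → St) (a b : ℕ) (u v : List ℕ) :
    mv mk (a :: (u ++ [b])) v = mk (a :: u) (b :: v) := by
  unfold mv
  have h : a :: (u ++ [b]) = (a :: u) ++ [b] := rfl
  rw [h, List.dropLast_concat, List.getLastD_concat]

lemma mv_two (mk : List ℕ → List ℕ → St) (a b : ℕ) (v : List ℕ) : mv mk [a, b] v = mk [a] (b :: v) := rfl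

lemma mv_conc2 (mk : List ℕ → List ℕ → St) (a c b : ℕ) (u v : List ℕ) :
    mv mk (a :: c :: (u ++ [b])) v = mk (a :: c :: u) (b :: v) := mv_conc mk a b (c :: u) v

lemma rAxAy : Ax * Ay = Ay * Ax := by
  refine LinearMap.ext fun f => funext fun s => ?_
  show axF (ayF f) s = ayF (axF f) s
  rcases s with (_ | ⟨_ | _ | e, v⟩) | ⟨_ | a, u, _ | ⟨_ | e, v⟩⟩ | ⟨_ | a, u, _ | ⟨_ | e, v⟩⟩ <;>
  first
  | (rcases cases3 u with rfl | ⟨b, rfl⟩ | ⟨a', u', b, rfl⟩ <;>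
      simp [axF, ayF, mkX, mkY, mv_one, mv_two, mv_conc2, mv_conc])
  | simp [axF, ayF]

lemma rAxBy : Ax * By = By * Ax := by
  refine LinearMap.ext fun f => funext fun s => ?_
  show axF (byF f) s = byF (axF f) s
  rcases s with (_ | ⟨_ | _ | e, v⟩) | ⟨_ | a, u, _ | ⟨_ | e, v⟩⟩ | ⟨_ | a, u, _ | ⟨_ | e, v⟩⟩ <;>
  first
  | (rcases cases3 u with rfl | ⟨b, rfl⟩ | ⟨a', u', b, rfl⟩ <;>
      simp [axF, byF, mkX, mkY, mv_one, mv_two, mv_conc2, mv_conc])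
  | simp [axF, byF]

lemma rAyBx : Ay * Bx = Bx * Ay := by
  refine LinearMap.ext fun f => funext fun s => ?_
  show ayF (bxF f) s = bxF (ayF f) s
  rcases s with (_ | ⟨_ | _ | e, v⟩) | ⟨_ | a, u, _ | ⟨_ | e, v⟩⟩ | ⟨_ | a, u, _ | ⟨_ | e, v⟩⟩ <;>
  first
  | (rcases cases3 u with rfl | ⟨b, rfl⟩ | ⟨a', u', b, rfl⟩ <;>
      simp [ayF, bxF, mkX, mkY, mv_one, mv_two, mv_conc2, mv_conc])
  | simp [ayF, bxF]

lemma rBxC : Bx * Cc - Cc * Bx = By * Bx - Bx * By := by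
  refine LinearMap.ext fun f => funext fun s => ?_
  show bxF (cF f) s - cF (bxF f) s = byF (bxF f) s - bxF (byF f) s
  rcases s with (_ | ⟨_ | _ | e, v⟩) | ⟨_ | a, u, _ | ⟨_ | e, v⟩⟩ | ⟨_ | a, u, _ | ⟨_ | e, v⟩⟩ <;>
  first
  | (rcases cases3 u with rfl | ⟨b, rfl⟩ | ⟨a', u', b, rfl⟩ <;>
      simp [bxF, byF, cF, mkX, mkY, mv_one, mv_two, mv_conc2, mv_conc])
  | simp [bxF, byF, cF]

lemma rByC : By * Cc - Cc * By = Bx * By - By * Bx := by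
  refine LinearMap.ext fun f => funext fun s => ?_
  show byF (cF f) s - cF (byF f) s = bxF (byF f) s - byF (bxF f) s
  rcases s with (_ | ⟨_ | _ | e, v⟩) | ⟨_ | a, u, _ | ⟨_ | e, v⟩⟩ | ⟨_ | a, u, _ | ⟨_ | e, v⟩⟩ <;>
  first
  | (rcases cases3 u with rfl | ⟨b, rfl⟩ | ⟨a', u', b, rfl⟩ <;>
      simp [bxF, byF, cF, mkX, mkY, mv_one, mv_two, mv_conc2, mv_conc])
  | simp [bxF, byF, cF]

lemma rAC : (Ax - Ay) * Cc - Cc * (Ax - Ay) = By * Bx - Bx * By := by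
  refine LinearMap.ext fun f => funext fun s => ?_
  show (axF (cF f) s - ayF (cF f) s) - cF (axF f - ayF f) s = byF (bxF f) s - bxF (byF f) s
  rcases s with (_ | ⟨_ | _ | e, _ | ⟨_ | e', v⟩⟩) | ⟨_ | a, u, _ | ⟨_ | e, v⟩⟩ | ⟨_ | a, u, _ | ⟨_ | e, v⟩⟩ <;>
  first
  | (rcases cases3 u with rfl | ⟨b, rfl⟩ | ⟨a', u', b, rfl⟩ <;>
      simp [axF, ayF, bxF, byF, cF, mkX, mkY, mv_one, mv_two, mv_conc2, mv_conc])
  | simp [axF, ayF, bxF, byF, cF]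

theorem taskR : TaskR := ⟨rAxAy, rAxBy, rAyBx, rBxC, rByC, rAC⟩

end Pool.Agent.D0H34.FU
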