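import Pool.Agent.D0H34.FU.Lead

/-! The terms of weight at most two. -/

set_option autoImplicit false

namespace Pool.Agent.D0H34.FU

open Pool.Agent.H777R4.DM Pool.Agent.Helper392_GT

attribute [local instance 100] LieRing.ofAssociativeRing

/-- strictly upper triangular matrices -/
def E3 (p q r : ℚ) : Matrix (Fin 3) (Fin 3) ℚ := !![0, p, r; 0, 0, q; 0, 0, 0]

lemma E3_mul (p q r p' q' r' : ℚ) : E3 p q r * E3 p' q' r' = E3 0 0 (p * q') := by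
  unfold E3
  ext i j
  fin_cases i <;> fin_cases j <;> simp [Matrix.mul_apply, Fin.sum_univ_three]

lemma E3_add (p q r p' q' r' : ℚ) : E3 p q r + E3 p' q' r' = E3 (p + p') (q + q') (r + r') := by
  unfold E3
  ext i j
  fin_cases i <;> fin_cases j <;> simp

lemma E3_smul (c p q r : ℚ) : c • E3 p q r = E3 (c * p) (c * q) (c * r) := by
  unfold E3
  ext i j
  fin_cases i <;> fin_cases j <;> simp

lemma E3_neg (p q r : ℚ) : - E3 p q r = E3 (-p) (-q) (-r) := by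
  unfold E3
  ext i j
  fin_cases i <;> fin_cases j <;> simp

lemma E3_sub (p q r p' q' r' : ℚ) : E3 p q r - E3 p' q' r' = E3 (p - p') (q - q') (r - r') := by
  unfold E3
  ext i j
  fin_cases i <;> fin_cases j <;> simp

lemma E3_lie (p q r p' q' r' : ℚ) : ⁅E3 p q r, E3 p' q' r'⁆ = E3 0 0 (p * q' - p' * q) := by
  have h : ⁅E3 p q r, E3 p' q' r'⁆ = E3 p q r * E3 p' q' r' - E3 p' q' r' * E3 p q r := rfl
  rw [h, E3_mul, E3_mul, E3_sub, sub_self]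

lemma e3_all (ψ : F2 ℚ) : ∃ α β γ : ℚ, (ψ ∈ D1 ℚ → α = 0 ∧ β = 0) ∧ ∀ a1 a2 b1 b2 : ℚ,
    subst ℚ (E3 a1 a2 0) (E3 b1 b2 0) ψ =
      E3 (α * a1 + β * b1) (α * a2 + β * b2) (γ * (a1 * b2 - a2 * b1)) := by
  have key : ∀ ψ : F2 ℚ, ∃ α β γ : ℚ, ∀ a1 a2 b1 b2 : ℚ, subst ℚ (E3 a1 a2 0) (E3 b1 b2 0) ψ =
      E3 (α * a1 + β * b1) (α * a2 + β * b2) (γ * (a1 * b2 - a2 * b1)) := by
    intro ψ
    refine free_ind (fun ψ => ∃ α β γ : ℚ, ∀ a1 a2 b1 b2 : ℚ, subst ℚ (E3 a1 a2 0) (E3 b1 b2 0) ψ =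
      E3 (α * a1 + β * b1) (α * a2 + β * b2) (γ * (a1 * b2 - a2 * b1))) ?_ ?_ ?_ ?_ ?_ ?_ ψ
    · refine ⟨0, 0, 0, fun a1 a2 b1 b2 => ?_⟩
      rw [map_zero]
      ext i j
      fin_cases i <;> fin_cases j <;> simp [E3]
    · rintro a b ⟨α, β, γ, h⟩ ⟨α', β', γ', h'⟩
      refine ⟨α + α', β + β', γ + γ', fun a1 a2 b1 b2 => ?_⟩
      rw [map_add, h, h', E3_add]
      congr 1 <;> ring
    · rintro c a ⟨α, β, γ, h⟩
      refine ⟨c * α, c * β, c * γ, fun a1 a2 b1 b2 => ?_⟩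
      rw [map_smul, h, E3_smul]
      congr 1 <;> ring
    · rintro a b ⟨α, β, γ, h⟩ ⟨α', β', γ', h'⟩
      refine ⟨0, 0, α * β' - α' * β, fun a1 a2 b1 b2 => ?_⟩
      rw [LieHom.map_lie, h, h', E3_lie]
      congr 1 <;> ring
    · refine ⟨1, 0, 0, fun a1 a2 b1 b2 => ?_⟩
      rw [subst_x]
      congr 1 <;> ring
    · refine ⟨0, 1, 0, fun a1 a2 b1 b2 => ?_⟩
      rw [subst_y]
      congr 1 <;> ring
  obtain ⟨α, β, γ, h⟩ := key ψ
  refine ⟨α, β, γ, fun hψ => ?_, h⟩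
  have hz : ∀ a1 a2 b1 b2 : ℚ, subst ℚ (E3 a1 a2 0) (E3 b1 b2 0) ψ 0 1 = 0 := by
    intro a1 a2 b1 b2
    refine lie_ind ⊤ ⊤ (fun ψ => subst ℚ (E3 a1 a2 0) (E3 b1 b2 0) ψ 0 1 = 0) ?_ ?_ ?_ ?_ hψ
    · rw [map_zero]; rfl
    · intro a b ha hb
      rw [map_add, Matrix.add_apply, ha, hb, add_zero]
    · intro c a ha
      rw [map_smul, Matrix.smul_apply, ha, smul_zero]
    · intro a _ b _
      obtain ⟨p, q, r, h1⟩ := key a
      obtain ⟨p', q', r', h2⟩ := key b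
      rw [LieHom.map_lie, h1, h2, E3_lie]
      rfl
  constructor
  · have := hz 1 0 0 0
    rw [h] at this
    simpa [E3] using this
  · have := hz 0 0 1 0
    rw [h] at this
    simpa [E3] using this

/-- the representation of the words of length at most two -/
noncomputable def mt : A →ₐ[ℚ] Matrix (Fin 3) (Fin 3) ℚ :=
  MonoidAlgebra.lift ℚ (Matrix (Fin 3) (Fin 3) ℚ) (FreeMonoid (Fin 2)) (FreeMonoid.lift ![E3 1 0 0, E3 0 1 0])

lemma mt_x (i : Fin 2) : mt (x i) = ![E3 1 0 0, E3 0 1 0] i := by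
  rw [x, wd, mt, MonoidAlgebra.lift_of]
  exact FreeMonoid.lift_eval_of _ i

lemma mt_bri (u : F2 ℚ) : mt (bri u) = subst ℚ (E3 1 0 0) (E3 0 (-1) 0) u := by
  refine free_ind (fun u => mt (bri u) = subst ℚ (E3 1 0 0) (E3 0 (-1) 0) u) ?_ ?_ ?_ ?_ ?_ ?_ u
  · simp
  · intro a b ha hb
    rw [map_add, map_add, map_add, ha, hb]
  · intro c a ha
    rw [map_smul, map_smul, map_smul, ha]
  · intro a b ha hb
    rw [bri_lie, map_sub, map_mul, map_mul, ha, hb, LieHom.map_lie]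
    rfl
  · rw [bri_x, mt_x, subst_x]; rfl
  · rw [bri_y, map_neg, mt_x, subst_y]
    show - E3 0 1 0 = _
    rw [E3_neg, neg_zero]

lemma mt_wd (u : List (Fin 2)) :
    (mt (wd u) 2 1 = 0 ∧ mt (wd u) 2 2 = if u = [] then 1 else 0) ∧
    (mt (wd u) 1 1 = (if u = [] then 1 else 0) ∧ mt (wd u) 1 2 = if u = [1] then 1 else 0) ∧
    (mt (wd u) 0 1 = (if u = [0] then 1 else 0) ∧ mt (wd u) 0 2 = if u = [0, 1] then 1 else 0) := by
  induction u with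
  | nil =>
    have h : (wd ([] : List (Fin 2)) : A) = 1 := rfl
    rw [h, map_one]
    simp [Matrix.one_apply]
  | cons i u ih =>
    have h : (wd (i :: u) : A) = x i * wd u := by rw [x, wd_mul]; rfl
    rw [h, map_mul, mt_x]
    obtain ⟨⟨h21, h22⟩, ⟨h11, h12⟩, ⟨h01, h02⟩⟩ := ih
    fin_cases i
    · simp [E3, Matrix.mul_apply, Fin.sum_univ_three, h11, h12]
    · simp [E3, Matrix.mul_apply, Fin.sum_univ_three, h21, h22]

lemma mt_co (P : A) : mt P 0 1 = co P [0] ∧ mt P 1 2 = co P [1] ∧ mt P 0 2 = co P [0, 1] := by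
  induction P using al_induction with
  | h1 u =>
    obtain ⟨⟨h21, h22⟩, ⟨h11, h12⟩, ⟨h01, h02⟩⟩ := mt_wd u
    rw [h01, h12, h02, co_wd, co_wd, co_wd]
    exact ⟨rfl, rfl, rfl⟩
  | h2 P Q hP hQ =>
    simp only [map_add, Matrix.add_apply, co_add, hP.1, hP.2.1, hP.2.2, hQ.1, hQ.2.1, hQ.2.2, and_self]
  | h3 c P hP =>
    simp only [map_smul, Matrix.smul_apply, co_smul, hP.1, hP.2.1, hP.2.2, smul_eq_mul, and_self]

lemma small_grt {ψ : F2 ℚ} (h : IsGRT ℚ ψ) : co (bri ψ) [0] = 0 ∧ co (bri ψ) [1] = 0 ∧ co (bri ψ) [0, 1] = 0 := by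
  obtain ⟨α, β, γ, h1, h2⟩ := e3_all ψ
  obtain ⟨rfl, rfl⟩ := h1 (pentagon_mem_D1 h.pent)
  obtain ⟨m1, m2, m3⟩ := mt_co (bri ψ)
  have hx := congrArg (subst ℚ (E3 1 0 0) (E3 0 1 0)) h.hexa
  rw [map_add, map_add, map_subst, map_subst, map_subst] at hx
  simp only [map_sub, map_neg, map_zero] at hx
  rw [subst_x, subst_y] at hx
  rw [E3_neg, E3_sub] at hx
  have e0 : (E3 (-1 - 0) (-0 - 1) (-0 - 0) : Matrix (Fin 3) (Fin 3) ℚ) = E3 (-1) (-1) 0 := by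
    congr 1 <;> ring
  rw [e0, h2, h2, h2] at hx
  have hx2 := congrFun (congrFun hx 0) 2
  simp [E3] at hx2
  have hg : γ = 0 := by linarith
  rw [← m1, ← m2, ← m3, mt_bri, h2, hg]
  simp [E3]

end Pool.Agent.D0H34.FU
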