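import Pool.Agent.D0H84.LS.Final
import Pool.Agent.Helper392_GT.Defs5

/-! MP_446dfa_ag: solutions of the pentagon equation satisfy the quasi-shuffle relations (project FU).
Definitions and task statements. -/

set_option autoImplicit false

namespace Pool.Agent.D0H34.FU

open Pool.Agent.H777R4.DM Pool.Agent.Helper392_GT

attribute [local instance 100] LieRing.ofAssociativeRing

/-- The states: a list of exponents together with the position of two marks. `c v`: both marks at the head of `v`;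
`y a u v`: the list `a :: u ++ v` with the first mark at the head and the second at the head of `v`
(absent if `v = []`); `x a u v`: the same with the roles of the marks exchanged. -/
inductive St
  | c (v : List ℕ)
  | y (a : ℕ) (u v : List ℕ)
  | x (a : ℕ) (u v : List ℕ)

/-- Functions on the states. -/
abbrev F : Type := St → ℚ

/-- `y`-state with first segment `u` -/
def mkY : List ℕ → List ℕ → St
  | [], v => .c v
  | a :: u, v => .y a u v

/-- `x`-state with first segment `u` -/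
def mkX : List ℕ → List ℕ → St
  | [], v => .c v
  | a :: u, v => .x a u v

/-- `mv mk (u ++ [b]) v = mk u (b :: v)` -/
def mv (mk : List ℕ → List ℕ → St) (u v : List ℕ) : St := mk u.dropLast (u.getLastD 0 :: v)

/-- the operator `A_y` -/
def ayF (f : F) : F
  | .c [] => 0
  | .c (0 :: _) => 0
  | .c ((e + 1) :: v) => f (.c (e :: v))
  | .y 0 _ _ => 0
  | .y (a + 1) u v => f (.y a u v)
  | .x _ _ [] => 0
  | .x a u (0 :: v) => - f (mv mkX (a :: u) v)
  | .x a u ((e + 1) :: v) => f (.x a u (e :: v))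

/-- the operator `A_x` -/
def axF (f : F) : F
  | .c [] => 0
  | .c (0 :: _) => 0
  | .c ((e + 1) :: v) => f (.c (e :: v))
  | .x 0 _ _ => 0
  | .x (a + 1) u v => f (.x a u v)
  | .y _ _ [] => 0
  | .y a u (0 :: v) => - f (mv mkY (a :: u) v)
  | .y a u ((e + 1) :: v) => f (.y a u (e :: v))

/-- the operator `B_y` -/
def byF (f : F) : F
  | .c _ => 0
  | .y 0 u v => f (mkY u v)
  | .y (_ + 1) _ _ => 0
  | .x _ _ [] => 0
  | .x a u (0 :: v) => f (.x a u v) - f (mv mkX (a :: u) v)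
  | .x _ _ ((_ + 1) :: _) => 0

/-- the operator `B_x` -/
def bxF (f : F) : F
  | .c _ => 0
  | .x 0 u v => f (mkX u v)
  | .x (_ + 1) _ _ => 0
  | .y _ _ [] => 0
  | .y a u (0 :: v) => f (.y a u v) - f (mv mkY (a :: u) v)
  | .y _ _ ((_ + 1) :: _) => 0

/-- the operator `C` -/
def cF (f : F) : F
  | .c [] => 0
  | .c (0 :: v) => f (.c v)
  | .c ((_ + 1) :: _) => 0
  | .y _ _ _ => 0
  | .x _ _ _ => 0

/-- linear version of `ayF` -/
def Ay : Module.End ℚ F where
  toFun := ayF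
  map_add' f g := by
    funext s
    rcases s with (_ | ⟨_ | e, v⟩) | ⟨_ | a, u, v⟩ | ⟨a, u, _ | ⟨_ | e, v⟩⟩ <;> simp [ayF] <;> ring
  map_smul' r f := by
    funext s
    rcases s with (_ | ⟨_ | e, v⟩) | ⟨_ | a, u, v⟩ | ⟨a, u, _ | ⟨_ | e, v⟩⟩ <;> simp [ayF]

/-- linear version of `axF` -/
def Ax : Module.End ℚ F where
  toFun := axF
  map_add' f g := by
    funext s
    rcases s with (_ | ⟨_ | e, v⟩) | ⟨a, u, _ | ⟨_ | e, v⟩⟩ | ⟨_ | a, u, v⟩ <;> simp [axF] <;> ring
  map_smul' r f := by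
    funext s
    rcases s with (_ | ⟨_ | e, v⟩) | ⟨a, u, _ | ⟨_ | e, v⟩⟩ | ⟨_ | a, u, v⟩ <;> simp [axF]

/-- linear version of `byF` -/
def By : Module.End ℚ F where
  toFun := byF
  map_add' f g := by
    funext s
    rcases s with (_ | ⟨_ | e, v⟩) | ⟨_ | a, u, v⟩ | ⟨a, u, _ | ⟨_ | e, v⟩⟩ <;> simp [byF] <;> ring
  map_smul' r f := by
    funext s
    rcases s with (_ | ⟨_ | e, v⟩) | ⟨_ | a, u, v⟩ | ⟨a, u, _ | ⟨_ | e, v⟩⟩ <;> simp [byF] <;> ring

/-- linear version of `bxF` -/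
def Bx : Module.End ℚ F where
  toFun := bxF
  map_add' f g := by
    funext s
    rcases s with (_ | ⟨_ | e, v⟩) | ⟨a, u, _ | ⟨_ | e, v⟩⟩ | ⟨_ | a, u, v⟩ <;> simp [bxF] <;> ring
  map_smul' r f := by
    funext s
    rcases s with (_ | ⟨_ | e, v⟩) | ⟨a, u, _ | ⟨_ | e, v⟩⟩ | ⟨_ | a, u, v⟩ <;> simp [bxF] <;> ring

/-- linear version of `cF` -/
def Cc : Module.End ℚ F where
  toFun := cF
  map_add' f g := by
    funext s
    rcases s with (_ | ⟨_ | e, v⟩) | ⟨a, u, v⟩ | ⟨a, u, v⟩ <;> simp [cF]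
  map_smul' r f := by
    funext s
    rcases s with (_ | ⟨_ | e, v⟩) | ⟨a, u, v⟩ | ⟨a, u, v⟩ <;> simp [cF]

/-- `D = B_x + B_y + C` -/
def Dd : Module.End ℚ F := Bx + By + Cc

/-- the function `δ` of the empty state -/
def dlt : F
  | .c [] => 1
  | _ => 0

/-- TASK R: the relations of the operators. -/
def TaskR : Prop :=
  Ax * Ay = Ay * Ax ∧ Ax * By = By * Ax ∧ Ay * Bx = Bx * Ay ∧
  Bx * Cc - Cc * Bx = By * Bx - Bx * By ∧ By * Cc - Cc * By = Bx * By - By * Bx ∧
  (Ax - Ay) * Cc - Cc * (Ax - Ay) = By * Bx - Bx * By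

/-- the quasi-shuffles of two words; the letter `k` stands for `y_{k+1}` -/
def stf : List ℕ → List ℕ → List (List ℕ)
  | [], b => [b]
  | a :: u, [] => [a :: u]
  | a :: u, b :: v => (stf u (b :: v)).map (a :: ·) ++ (stf (a :: u) v).map (b :: ·) ++
      (stf u v).map ((a + b + 1) :: ·)
termination_by u v => u.length + v.length

/-- the embedding `F2 ℚ → ℚ⟨x₀, x₁⟩`, `x ↦ x₀`, `y ↦ - x₁` -/
noncomputable def bri : F2 ℚ →ₗ⁅ℚ⁆ A := FreeLieAlgebra.lift ℚ ![x 0, - x 1]

/-- TASK BR: the bridge between the free Lie algebra `F2 ℚ` (with `FreeLieAlgebra.lift`) and the Lie polynomials in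
`A = ℚ⟨x₀, x₁⟩`. -/
def TaskBR : Prop :=
  (∀ σ, bri σ ∈ LieX) ∧ Function.Injective bri ∧
  (∀ (σ τ : F2 ℚ) (D : LieDerivation ℚ (F2 ℚ) (F2 ℚ)), IsIharaDer D σ → bri (D τ) = der (bri σ) (bri τ))

/-- operators on functions of one list -/
def aF (g : List ℕ → ℚ) : List ℕ → ℚ
  | [] => 0
  | 0 :: _ => 0
  | (e + 1) :: l => g (e :: l)

/-- operators on functions of one list -/
def bF (g : List ℕ → ℚ) : List ℕ → ℚ
  | [] => 0
  | 0 :: l => g l
  | (_ + 1) :: _ => 0

/-- linear version of `aF` -/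
def Aa : Module.End ℚ (List ℕ → ℚ) where
  toFun := aF
  map_add' f g := by
    funext s
    rcases s with _ | ⟨_ | e, v⟩ <;> simp [aF]
  map_smul' r f := by
    funext s
    rcases s with _ | ⟨_ | e, v⟩ <;> simp [aF]

/-- linear version of `bF` -/
def Bb : Module.End ℚ (List ℕ → ℚ) where
  toFun := bF
  map_add' f g := by
    funext s
    rcases s with _ | ⟨_ | e, v⟩ <;> simp [bF]
  map_smul' r f := by
    funext s
    rcases s with _ | ⟨_ | e, v⟩ <;> simp [bF]

/-- TASK CO: coefficients of the words `x₀^{e₁} x₁ ⋯ x₀^{e_r} x₁` through the operators `A`, `-B`. -/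
def TaskCO : Prop := ∀ (ψ : F2 ℚ) (l : List ℕ),
  subst ℚ Aa (-Bb) ψ (fun l => if l = [] then 1 else 0) l = co (bri ψ) (wordX l)

/-- TASK LEAD: the quasi-shuffle relations imply that the lowest depth part is shuffle primitive. -/
def TaskLEAD : Prop := ∀ ψ : A, ψ ∈ LieX → co ψ [1] = 0 →
  (∀ a b : List ℕ, a ≠ [] → b ≠ [] → (∃ e ∈ a ++ b, e ≠ 0) → ((stf a b).map (fun l => co ψ (wordX l))).sum = 0) →
  ∀ r : ℕ, 1 ≤ r → (∀ u, co ψ u ≠ 0 → r ≤ u.count 1) → Prim (Fp r ψ 0)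

end Pool.Agent.D0H34.FU
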