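import Pool.Agent.D0H34.FU.Lam

/-! The quasi-shuffle relations for the solutions of the pentagon equation. -/

set_option autoImplicit false

namespace Pool.Agent.D0H34.FU

open Pool.Agent.H777R4.DM Pool.Agent.Helper392_GT

attribute [local instance 100] LieRing.ofAssociativeRing

lemma ss_smul (a b : List ℕ) (c : ℚ) (g : List ℕ → ℚ) : ss a b (fun l => c * g l) = c * ss a b g := by
  unfold ss
  induction stf a b with
  | nil => simp
  | cons l L ih => simp only [List.map_cons, List.sum_cons, ih]; ring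

lemma SX_add (b0 : ℕ) (b' : List ℕ) (a0 : ℕ) (f g : F) : ∀ q w,
    SX b0 b' a0 (f + g) w q = SX b0 b' a0 f w q + SX b0 b' a0 g w q
  | [], w => by
    simp only [SX, Pi.add_apply, ss_add]
  | q0 :: q, w => by
    simp only [SX, Pi.add_apply, ss_add]
    rw [SX_add b0 b' a0 f g q (w ++ [q0])]
    ring

lemma SY_add (a0 : ℕ) (a' : List ℕ) (b0 : ℕ) (f g : F) : ∀ q w,
    SY a0 a' b0 (f + g) w q = SY a0 a' b0 f w q + SY a0 a' b0 g w q
  | [], w => by
    simp only [SY, Pi.add_apply, ss_add]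
  | q0 :: q, w => by
    simp only [SY, Pi.add_apply, ss_add]
    rw [SY_add a0 a' b0 f g q (w ++ [q0])]
    ring

lemma SX_smul (b0 : ℕ) (b' : List ℕ) (a0 : ℕ) (c : ℚ) (f : F) : ∀ q w,
    SX b0 b' a0 (c • f) w q = c * SX b0 b' a0 f w q
  | [], w => by
    simp only [SX, Pi.smul_apply, smul_eq_mul, ss_smul]
  | q0 :: q, w => by
    simp only [SX, Pi.smul_apply, smul_eq_mul, ss_smul]
    rw [SX_smul b0 b' a0 c f q (w ++ [q0])]
    ring

lemma SY_smul (a0 : ℕ) (a' : List ℕ) (b0 : ℕ) (c : ℚ) (f : F) : ∀ q w,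
    SY a0 a' b0 (c • f) w q = c * SY a0 a' b0 f w q
  | [], w => by
    simp only [SY, Pi.smul_apply, smul_eq_mul, ss_smul]
  | q0 :: q, w => by
    simp only [SY, Pi.smul_apply, smul_eq_mul, ss_smul]
    rw [SY_smul a0 a' b0 c f q (w ++ [q0])]
    ring

lemma LL_add (f g : F) (a b : List ℕ) : LL (f + g) a b = LL f a b + LL g a b := by
  rcases a with _ | ⟨a0, a'⟩
  · rcases b with _ | ⟨b0, b'⟩ <;> rfl
  · rcases b with _ | ⟨b0, b'⟩
    · rfl
    · simp only [LL, SX_add, SY_add, Pi.add_apply, ss_add]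
      ring

lemma LL_smul (c : ℚ) (f : F) (a b : List ℕ) : LL (c • f) a b = c * LL f a b := by
  rcases a with _ | ⟨a0, a'⟩
  · rcases b with _ | ⟨b0, b'⟩ <;> rfl
  · rcases b with _ | ⟨b0, b'⟩
    · rfl
    · simp only [LL, SX_smul, SY_smul, Pi.smul_apply, smul_eq_mul, ss_smul]
      ring

/-- functions of two lists -/
abbrev V2 : Type := List ℕ → List ℕ → ℚ

/-- `A ⊗ 1` -/
def A1 : Module.End ℚ V2 where
  toFun := a1F
  map_add' f g := by
    funext a b
    rcases a with _ | ⟨_ | a, u⟩ <;> simp [a1F, aF]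
  map_smul' r f := by
    funext a b
    rcases a with _ | ⟨_ | a, u⟩ <;> simp [a1F, aF]

/-- `B ⊗ 1` -/
def B1 : Module.End ℚ V2 where
  toFun := b1F
  map_add' f g := by
    funext a b
    rcases a with _ | ⟨_ | a, u⟩ <;> simp [b1F, bF]
  map_smul' r f := by
    funext a b
    rcases a with _ | ⟨_ | a, u⟩ <;> simp [b1F, bF]

/-- `1 ⊗ B` -/
def B2 : Module.End ℚ V2 where
  toFun := b2F
  map_add' f g := by
    funext a b
    rcases b with _ | ⟨_ | b, u⟩ <;> simp [b2F, bF]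
  map_smul' r f := by
    funext a b
    rcases b with _ | ⟨_ | b, u⟩ <;> simp [b2F, bF]

lemma A1B2 : A1 * B2 = B2 * A1 := by
  refine LinearMap.ext fun f => funext fun a => funext fun b => ?_
  show a1F (b2F f) a b = b2F (a1F f) a b
  rcases a with _ | ⟨_ | a, u⟩ <;> rcases b with _ | ⟨_ | b, v⟩ <;> rfl

lemma B1B2 : B1 * B2 = B2 * B1 := by
  refine LinearMap.ext fun f => funext fun a => funext fun b => ?_
  show b1F (b2F f) a b = b2F (b1F f) a b
  rcases a with _ | ⟨_ | a, u⟩ <;> rcases b with _ | ⟨_ | b, v⟩ <;> rfl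

/-- the relation `h = L f` -/
def RelL (f : F) (h : V2) : Prop := ∀ a b, LL f a b = h a b

lemma relL_A {f : F} {h : V2} (H : RelL f h) : RelL (Ax f) (A1 h) := by
  intro a b
  show LL (axF f) a b = a1F h a b
  rw [LL_Ax]
  have : LL f = h := funext fun a => funext fun b => H a b
  rw [this]

lemma relL_D {f : F} {h : V2} (H : RelL f h) : RelL ((-Dd) f) ((-B1 + -B2) h) := by
  intro a b
  have hL : LL f = h := funext fun a => funext fun b => H a b
  have e : (-Dd) f = (-1 : ℚ) • (bxF f + byF f + cF f) := by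
    rw [neg_one_smul]; rfl
  rw [e, LL_smul, LL_add, LL_add, LL_C, LL_Bx, LL_By, hL]
  show -1 * (b1F h a b + b2F h a b + 0) = - b1F h a b + - b2F h a b
  ring

lemma relL_all (ψ : F2 ℚ) (a b : List ℕ) :
    LL (Qf ψ) a b = subst ℚ A1 (-B1 + -B2) ψ (LL dlt) a b := by
  refine pres2 RelL ?_ ?_ ?_ (fun f h H => relL_A H) (fun f h H => relL_D H) ψ dlt (LL dlt) (fun a b => rfl) a b
  · intro a b
    have := LL_smul 0 0 a b
    rw [zero_smul, zero_mul] at this
    exact this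
  · intro f f' h h' H H' a b
    rw [LL_add, H, H']; rfl
  · intro c f h H a b
    rw [LL_smul, H]; rfl

lemma SX_dlt (b0 : ℕ) (b' : List ℕ) (a0 : ℕ) : ∀ q w, SX b0 b' a0 dlt w q = 0
  | [], w => by
    simp only [SX, dlt, ss_zero]
  | q0 :: q, w => by
    simp only [SX, dlt, ss_zero]
    rw [SX_dlt b0 b' a0 q (w ++ [q0])]
    simp

lemma SY_dlt (a0 : ℕ) (a' : List ℕ) (b0 : ℕ) : ∀ q w, SY a0 a' b0 dlt w q = 0
  | [], w => by
    simp only [SY, dlt, ss_zero]
  | q0 :: q, w => by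
    simp only [SY, dlt, ss_zero]
    rw [SY_dlt a0 a' b0 q (w ++ [q0])]
    simp

lemma LL_dlt (a : List ℕ) (b0 : ℕ) (b' : List ℕ) : LL dlt a (b0 :: b') = 0 := by
  rcases a with _ | ⟨a0, a'⟩
  · rfl
  · simp only [LL, SX_dlt, SY_dlt, dlt, ss_zero, add_zero]

theorem LL_Qf {ψ : F2 ℚ} (hψ : ψ ∈ D1 ℚ) (a : List ℕ) (b0 : ℕ) (b' : List ℕ) :
    LL (Qf ψ) a (b0 :: b') = 0 := by
  rw [relL_all]
  have h1 : subst ℚ (A1 + 0) (-B1 + -B2) ψ = subst ℚ A1 (-B1) ψ := by
    refine subst_shift ?_ ?_ ?_ ?_ ?_ hψ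
    · exact lie_zero _
    · exact lie_zero _
    · rw [lie_neg, lieAB, A1B2, sub_self, neg_zero]
    · rw [lie_neg, neg_lie, lieAB, B1B2, sub_self, neg_zero, neg_zero]
    · exact zero_lie _
  rw [add_zero] at h1
  rw [h1]
  refine pres1 (fun h : V2 => ∀ a b0 b', h a (b0 :: b') = 0) (fun _ _ _ => rfl) ?_ ?_ ?_ ?_ ψ (LL dlt)
    LL_dlt a b0 b'
  · intro h h' H H' a b0 b'
    rw [Pi.add_apply, Pi.add_apply, H, H', add_zero]
  · intro c h H a b0 b'
    rw [Pi.smul_apply, Pi.smul_apply, H, smul_zero]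
  · intro h H a b0 b'
    show a1F h a (b0 :: b') = 0
    rcases a with _ | ⟨_ | a, u⟩
    · rfl
    · rfl
    · exact H _ _ _
  · intro h H a b0 b'
    show - b1F h a (b0 :: b') = 0
    rw [neg_eq_zero]
    rcases a with _ | ⟨_ | a, u⟩
    · rfl
    · exact H _ _ _
    · rfl

lemma SX_eval (b0 : ℕ) (b' : List ℕ) (a0 : ℕ) (f : F) (G : List ℕ → ℚ)
    (H : ∀ w e l, f (.x a0 w (e :: l)) = G (a0 :: w ++ e :: l)) : ∀ q w,
    SX b0 b' a0 f w q = ss q (b0 :: b') (fun l => G (a0 :: w ++ l))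
  | [], w => by
    simp only [SX, ss_nil_left, H]
  | q0 :: q, w => by
    simp only [SX, H]
    rw [SX_eval b0 b' a0 f G H q (w ++ [q0]), ss_cons]
    simp only [List.cons_append, List.append_assoc, List.nil_append]
    ring

lemma SY_eval (a0 : ℕ) (a' : List ℕ) (b0 : ℕ) (f : F) (G : List ℕ → ℚ)
    (H : ∀ w e l, (b0 :: w ++ e :: l).sum ≠ 0 → f (.y b0 w (e :: l)) = G (b0 :: w ++ e :: l)) : ∀ q w,
    b0 + w.sum + a0 + a'.sum + q.sum ≠ 0 →
    SY a0 a' b0 f w q = ss (a0 :: a') q (fun l => G (b0 :: w ++ l))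
  | [], w, hs => by
    simp only [SY, ss_nil_right]
    rw [H]
    simp only [List.cons_append, List.sum_cons, List.sum_append, List.sum_nil] at hs ⊢
    omega
  | q0 :: q, w, hs => by
    simp only [SY]
    rw [SY_eval a0 a' b0 f G H q (w ++ [q0]) (by
      simp only [List.sum_append, List.sum_cons, List.sum_nil] at hs ⊢
      omega), ss_cons]
    have e1 : ss a' (q0 :: q) (fun l => f (.y b0 w (a0 :: l))) =
        ss a' (q0 :: q) (fun l => G (b0 :: w ++ a0 :: l)) := by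
      apply ss_congr
      intro l hl
      rw [H]
      simp only [List.cons_append, List.sum_cons, List.sum_append] at hs hl ⊢
      omega
    have e2 : ss a' q (fun l => f (.y b0 w ((a0 + q0 + 1) :: l))) =
        ss a' q (fun l => G (b0 :: w ++ (a0 + q0 + 1) :: l)) := by
      apply ss_congr
      intro l hl
      rw [H]
      simp only [List.cons_append, List.sum_cons, List.sum_append]
      omega
    rw [e1, e2]
    simp only [List.cons_append, List.append_assoc, List.nil_append]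
    ring

/-- **The quasi-shuffle relations** for the solutions of the pentagon equation. -/
theorem stuffle {ψ : F2 ℚ} (hp : Pentagon ℚ ψ) (a0 : ℕ) (a' : List ℕ) (b0 : ℕ) (b' : List ℕ)
    (hs : a0 + a'.sum + b0 + b'.sum ≠ 0) : ss (a0 :: a') (b0 :: b') (Gg ψ) = 0 := by
  have h := LL_Qf (pentagon_mem_D1 hp) (a0 :: a') b0 b'
  simp only [LL] at h
  rw [SX_eval b0 b' a0 (Qf ψ) (Gg ψ) (fun w e l => qX ψ (a0 :: w) (e :: l)),
    SY_eval a0 a' b0 (Qf ψ) (Gg ψ) (fun w e l hs => qY hp b0 w e l hs) b' [] (by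
      simp only [List.sum_nil]; omega)] at h
  have e : ss a' b' (fun l => Qf ψ (.c ((a0 + b0 + 1) :: l))) =
      ss a' b' (fun l => Gg ψ ((a0 + b0 + 1) :: l)) := by
    congr 1
    funext l
    exact qX ψ [] ((a0 + b0 + 1) :: l)
  rw [e] at h
  rw [ss_cons]
  simpa using h

end Pool.Agent.D0H34.FU
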